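import Mathlib

/-!
# A lemma on elements of `ℤ[ζ₅]` with norm `q ^ g * r ^ 5` (abstract form)

We work in a principal ideal domain `O` with an element `z` with the formal properties of `ζ₅` in
`ℤ[ζ₅]`.  (Adapted from the library module
`Pool.Graph.R_pool_sql_team_seeded_47a924f7.T6.H9.Q5.CycAbs`, where `q = 11`.)
-/

set_option autoImplicit false

namespace Pool.Agent.KS6_83.E5

/-- the properties of `ℤ[ζ₅]` that we use: `z` is a primitive fifth root of unity, `s` is the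
automorphism `z ↦ z ^ 2`, and `u / (complex conjugate of u)` is a root of unity for every unit. -/
structure Cyc5 (O : Type) [CommRing O] (z : O) (s : O →+* O) : Prop where
  hz : 1 + z + z ^ 2 + z ^ 3 + z ^ 4 = 0
  hs : s z = z ^ 2
  rep : ∀ x : O, ∃ a b c d : ℤ, x = a + b * z + c * z ^ 2 + d * z ^ 3
  ind : ∀ a b c d : ℤ, (a : O) + b * z + c * z ^ 2 + d * z ^ 3 = 0 → a = 0 ∧ b = 0 ∧ c = 0 ∧ d = 0
  unit : ∀ u : Oˣ, ∃ t : ℕ, (u : O) = (-z) ^ t * s (s u)

variable {O : Type} [CommRing O] {z : O} {s : O →+* O}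

namespace Cyc5

variable (h : Cyc5 O z s)
include h

lemma z5 : z ^ 5 = 1 := by
  linear_combination (z - 1) * h.hz

lemma s4 (x : O) : s (s (s (s x))) = x := by
  obtain ⟨a, b, c, d, rfl⟩ := h.rep x
  simp only [map_add, map_mul, map_pow, map_intCast, h.hs]
  have e1 : (((z ^ 2) ^ 2) ^ 2) ^ 2 = z := by
    calc (((z ^ 2) ^ 2) ^ 2) ^ 2 = (z ^ 5) ^ 3 * z := by ring
      _ = z := by rw [h.z5]; ring
  rw [e1]

lemma dvd5 {a b c d : ℤ} (h5 : (5 : O) ∣ a + b * z + c * z ^ 2 + d * z ^ 3) :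
    5 ∣ a ∧ 5 ∣ b ∧ 5 ∣ c ∧ 5 ∣ d := by
  obtain ⟨y, hy⟩ := h5
  obtain ⟨a', b', c', d', rfl⟩ := h.rep y
  have h1 := h.ind (a - 5 * a') (b - 5 * b') (c - 5 * c') (d - 5 * d') (by
    push_cast
    linear_combination hy)
  omega

lemma dvd5' {a b c d e : ℤ} (h5 : (5 : O) ∣ a + b * z + c * z ^ 2 + d * z ^ 3 + e * z ^ 4) :
    5 ∣ a - e ∧ 5 ∣ b - e ∧ 5 ∣ c - e ∧ 5 ∣ d - e := by
  apply h.dvd5
  have e1 : (((a - e : ℤ) : O) + ((b - e : ℤ) : O) * z + ((c - e : ℤ) : O) * z ^ 2 +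
      ((d - e : ℤ) : O) * z ^ 3) = a + b * z + c * z ^ 2 + d * z ^ 3 + e * z ^ 4 := by
    push_cast
    linear_combination (-(e : O)) * h.hz
  rw [e1]
  exact h5

lemma int_dvd5 {a : ℤ} (h5 : (5 : O) ∣ a) : 5 ∣ a := by
  refine (h.dvd5 (a := a) (b := 0) (c := 0) (d := 0) ?_).1
  simpa using h5

lemma int_inj {a : ℤ} (h0 : (a : O) = 0) : a = 0 :=
  (h.ind a 0 0 0 (by push_cast; linear_combination h0)).1

/-- the norm of an element is an integer -/
lemma norm_int (x : O) : ∃ k : ℤ, x * s x * s (s x) * s (s (s x)) = k := by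
  set N := x * s x * s (s x) * s (s (s x)) with hN
  have hfix : s N = N := by
    rw [hN]
    simp only [map_mul]
    rw [h.s4 x]
    ring
  obtain ⟨a, b, c, d, e⟩ := h.rep N
  rw [e] at hfix
  simp only [map_add, map_mul, map_pow, map_intCast, h.hs] at hfix
  have h1 := h.ind c (b - d + c) (2 * c - b) (d + c) (by
    push_cast
    linear_combination (-1 : O) * hfix + (d : O) * z * h.z5 + (c : O) * h.hz)
  refine ⟨a, ?_⟩
  have hc : c = 0 := h1.1
  have hd : d = 0 := by omega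
  have hb : b = 0 := by omega
  rw [e, hb, hc, hd]
  simp

lemma isUnit_of_norm {x : O} (hx : x * s x * s (s x) * s (s (s x)) = 1 ∨
    x * s x * s (s x) * s (s (s x)) = -1) : IsUnit x := by
  rcases hx with hx | hx
  · exact IsUnit.of_mul_eq_one (s x * s (s x) * s (s (s x))) (by rw [← hx]; ring)
  · exact IsUnit.of_mul_eq_one (-(s x * s (s x) * s (s (s x)))) (by
      linear_combination (-1 : O) * hx)

/-- an element whose norm is a prime number is prime -/
lemma prime_of_norm [IsDomain O] [IsPrincipalIdealRing O] {ρ : O} {q : ℤ} (hq : Prime q)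
    (hN : ρ * s ρ * s (s ρ) * s (s (s ρ)) = q) : Prime ρ := by
  have hirr : Irreducible ρ := by
    refine ⟨?_, ?_⟩
    · intro hu
      apply hq.not_isUnit
      obtain ⟨k, hk⟩ := h.norm_int (hu.unit⁻¹ : Oˣ)
      have e1 : ρ * ((hu.unit⁻¹ : Oˣ) : O) = 1 := hu.mul_val_inv
      set y : O := ((hu.unit⁻¹ : Oˣ) : O) with hy
      have e2 : (q : O) * k = 1 := by
        rw [← hN, ← hk]
        have : s ρ * s y = 1 := by rw [← map_mul, e1, map_one]
        have h2 : s (s ρ) * s (s y) = 1 := by rw [← map_mul, this, map_one]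
        have h3 : s (s (s ρ)) * s (s (s y)) = 1 := by rw [← map_mul, h2, map_one]
        calc _ = (ρ * y) * (s ρ * s y) * (s (s ρ) * s (s y)) * (s (s (s ρ)) * s (s (s y))) := by ring
          _ = 1 := by rw [e1, this, h2, h3]; ring
      have e3 : q * k = 1 := by
        have := h.int_inj (a := q * k - 1) (by push_cast; rw [e2]; ring)
        omega
      exact IsUnit.of_mul_eq_one _ e3
    · intro x y hxy
      obtain ⟨k, hk⟩ := h.norm_int x
      obtain ⟨l, hl⟩ := h.norm_int y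
      have e2 : (q : O) = k * l := by
        rw [← hN, ← hk, ← hl, hxy]
        simp only [map_mul]
        ring
      have e3 : q = k * l := by
        have := h.int_inj (a := q - k * l) (by push_cast; rw [e2]; ring)
        omega
      rcases hq.irreducible.isUnit_or_isUnit e3 with h1 | h1
      · left
        rcases Int.isUnit_iff.1 h1 with h2 | h2
        · exact h.isUnit_of_norm (Or.inl (by rw [hk, h2]; simp))
        · exact h.isUnit_of_norm (Or.inr (by rw [hk, h2]; simp))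
      · right
        rcases Int.isUnit_iff.1 h1 with h2 | h2
        · exact h.isUnit_of_norm (Or.inl (by rw [hl, h2]; simp))
        · exact h.isUnit_of_norm (Or.inr (by rw [hl, h2]; simp))
  exact hirr.prime

/-- fifth powers are rational modulo `5` -/
lemma pow5_int (x : O) : ∃ k : ℤ, (5 : O) ∣ x ^ 5 - k := by
  have add5 : ∀ x y : O, (5 : O) ∣ (x + y) ^ 5 - (x ^ 5 + y ^ 5) := fun x y =>
    ⟨x ^ 4 * y + 2 * x ^ 3 * y ^ 2 + 2 * x ^ 2 * y ^ 3 + x * y ^ 4, by ring⟩
  obtain ⟨a, b, c, d, rfl⟩ := h.rep x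
  refine ⟨a ^ 5 + b ^ 5 + c ^ 5 + d ^ 5, ?_⟩
  have e1 : (b * z) ^ 5 = (b : O) ^ 5 := by rw [mul_pow, h.z5, mul_one]
  have e2 : (c * z ^ 2) ^ 5 = (c : O) ^ 5 := by
    rw [mul_pow, ← pow_mul, mul_comm 2 5, pow_mul, h.z5, one_pow, mul_one]
  have e3 : (d * z ^ 3) ^ 5 = (d : O) ^ 5 := by
    rw [mul_pow, ← pow_mul, mul_comm 3 5, pow_mul, h.z5, one_pow, mul_one]
  have h1 := add5 ((a : O) + b * z + c * z ^ 2) (d * z ^ 3)
  have h2 := add5 ((a : O) + b * z) (c * z ^ 2)
  have h3 := add5 (a : O) (b * z)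
  have e : ((a : O) + b * z + c * z ^ 2 + d * z ^ 3) ^ 5 - ((a ^ 5 + b ^ 5 + c ^ 5 + d ^ 5 : ℤ) : O)
      = (((a : O) + b * z + c * z ^ 2 + d * z ^ 3) ^ 5 -
          (((a : O) + b * z + c * z ^ 2) ^ 5 + (d * z ^ 3) ^ 5)) +
        ((((a : O) + b * z + c * z ^ 2) ^ 5) - (((a : O) + b * z) ^ 5 + (c * z ^ 2) ^ 5)) +
        (((a : O) + b * z) ^ 5 - ((a : O) ^ 5 + (b * z) ^ 5)) := by
    rw [e1, e2, e3]; push_cast; ring
  rw [e]
  exact dvd_add (dvd_add h1 h2) h3

/-- `u + v z` and its complex conjugate do not differ by a root of unity modulo `5` -/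
lemma rho_conj {u v : ℤ} (hv : ¬ 5 ∣ v) (huv : 5 ∣ u - 2 * v ∨ 5 ∣ u + 2 * v) (t : ℕ)
    (h5 : (5 : O) ∣ (-z) ^ t * (u + v * z) - (u + v * z ^ 4)) : False := by
  have hz10 : (-z) ^ 10 = 1 := by
    calc (-z) ^ 10 = (z ^ 5) ^ 2 := by ring
      _ = 1 := by rw [h.z5]; ring
  have hred : (-z) ^ t = (-z) ^ (t % 10) := by
    conv_lhs => rw [← Nat.div_add_mod t 10, pow_add, pow_mul, hz10, one_pow, one_mul]
  rw [hred] at h5
  have hlt : t % 10 < 10 := Nat.mod_lt _ (by norm_num)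
  have key : ∀ a b c d e : ℤ, (-z) ^ (t % 10) * (u + v * z) - (u + v * z ^ 4) =
      a + b * z + c * z ^ 2 + d * z ^ 3 + e * z ^ 4 →
      5 ∣ a - e ∧ 5 ∣ b - e ∧ 5 ∣ c - e ∧ 5 ∣ d - e := by
    intro a b c d e e1
    rw [e1] at h5
    exact h.dvd5' h5
  generalize t % 10 = T at *
  interval_cases T
  · have := key 0 v 0 0 (-v) (by push_cast; ring)
    omega
  · have := key (-u) (-u) (-v) 0 (-v) (by push_cast; ring)
    omega
  · have := key (-u) 0 u v (-v) (by push_cast; ring)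
    omega
  · have := key (-u) 0 0 (-u) (-2 * v) (by push_cast; ring)
    omega
  · have := key (v - u) 0 0 0 (u - v) (by push_cast; linear_combination (v : O) * h.z5)
    omega
  · have := key (-2 * u) (-v) 0 0 (-v) (by
      push_cast; linear_combination (-(u : O) - v * z) * h.z5)
    omega
  · have := key (-u) u v 0 (-v) (by
      push_cast; linear_combination ((u : O) * z + v * z ^ 2) * h.z5)
    omega
  · have := key (-u) 0 (-u) (-v) (-v) (by
      push_cast; linear_combination (-(u : O) * z ^ 2 - v * z ^ 3) * h.z5)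
    omega
  · have := key (-u) 0 0 u 0 (by
      push_cast; linear_combination ((u : O) * z ^ 3 + v * z ^ 4) * h.z5)
    omega
  · have := key (-u - v) 0 0 0 (-u - v) (by
      push_cast; linear_combination (-(u : O) * z ^ 4 - v * (z ^ 5 + 1)) * h.z5)
    omega

end Cyc5

end Pool.Agent.KS6_83.E5
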