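import Pool.Agent.KS6_83.E5.CycKey

/-!
# The key lemma for the elements `(m + n √5) / 2`-style forms (odd case)
-/

set_option autoImplicit false

namespace Pool.Agent.KS6_83.E5

variable {O : Type} [CommRing O] {z : O} {s : O →+* O}

namespace Cyc5

variable (h : Cyc5 O z s) {q : ℤ} {ρ : O} (hr : Rho z s q ρ)
include h hr

/-- the third application -/
theorem app3 [IsDomain O] [IsPrincipalIdealRing O] {a b r : ℤ} {g : ℕ} (hb : 5 ∣ b)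
    (hcop : IsCoprime (a ^ 4 - 2 * a ^ 3 * b + 4 * a ^ 2 * b ^ 2 - 3 * a * b ^ 3 + b ^ 4) (10 * b))
    (hRr : a ^ 4 - 2 * a ^ 3 * b + 4 * a ^ 2 * b ^ 2 - 3 * a * b ^ 3 + b ^ 4 = q ^ g * r ^ 5)
    (hg : ¬ 5 ∣ g) : False := by
  have hz5 := h.z5
  have hz := h.hz
  have s1 : s (z + z ^ 2) = z ^ 2 + z ^ 4 := by
    simp only [map_add, map_pow, h.hs]
    ring
  have s2 : s (z ^ 2 + z ^ 4) = z ^ 3 + z ^ 4 := by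
    simp only [map_add, map_pow, h.hs]
    linear_combination (z ^ 3) * hz5
  have s3 : s (z ^ 3 + z ^ 4) = z + z ^ 3 := by
    simp only [map_add, map_pow, h.hs]
    linear_combination (z + z ^ 3) * hz5
  refine h.key hr (a := a) (B := z + z ^ 2) ?_ ?_ ?_ hb ?_ hcop hRr hg
  · rw [s1]
    refine ⟨-4 - 8 * z - 2 * z ^ 2 - 6 * z ^ 3, ?_⟩
    linear_combination (10 - 6 * z + 4 * z ^ 2 - 6 * z ^ 3) * hz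
  · rw [s1, s2]
    refine ⟨2 + 4 * z - 4 * z ^ 2 + 8 * z ^ 3, ?_⟩
    linear_combination (10 - 12 * z - 4 * z ^ 2 + 8 * z ^ 3) * hz
  · rw [s1, s2, s3]
    refine ⟨-2 - 4 * z - 6 * z ^ 2 + 2 * z ^ 3, ?_⟩
    linear_combination (10 - 10 * z + 2 * z ^ 2) * hz
  · rw [s1, s2, s3]
    push_cast
    linear_combination ((-1)*z^0*(a:O)^0*(b:O)^4 + (3)*z^0*(a:O)^1*(b:O)^3 + (-4)*z^0*(a:O)^2*(b:O)^2 + (2)*z^0*(a:O)^3*(b:O)^1 + (1)*z^1*(a:O)^0*(b:O)^4 + (-3)*z^1*(a:O)^1*(b:O)^3 + (4)*z^1*(a:O)^2*(b:O)^2 + (1)*z^2*(a:O)^2*(b:O)^2 + (2)*z^3*(a:O)^2*(b:O)^2 + (1)*z^4*(a:O)^1*(b:O)^3 + (1)*z^4*(a:O)^2*(b:O)^2 + (-1)*z^5*(a:O)^0*(b:O)^4 + (4)*z^5*(a:O)^1*(b:O)^3 + (1)*z^6*(a:O)^0*(b:O)^4 + (1)*z^6*(a:O)^1*(b:O)^3 + (1)*z^7*(a:O)^0*(b:O)^4 + (1)*z^7*(a:O)^1*(b:O)^3 + (1)*z^8*(a:O)^0*(b:O)^4 + (1)*z^9*(a:O)^0*(b:O)^4)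 * hz

/-- the fourth application -/
theorem app4 [IsDomain O] [IsPrincipalIdealRing O] {a b r : ℤ} {g : ℕ} (hb : 5 ∣ b)
    (hcop : IsCoprime (a ^ 4 - 6 * a ^ 3 * b + 26 * a ^ 2 * b ^ 2 - 51 * a * b ^ 3 + 41 * b ^ 4)
      (10 * b))
    (hRr : a ^ 4 - 6 * a ^ 3 * b + 26 * a ^ 2 * b ^ 2 - 51 * a * b ^ 3 + 41 * b ^ 4 =
      q ^ g * r ^ 5) (hg : ¬ 5 ∣ g) : False := by
  have hz5 := h.z5
  have hz := h.hz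
  have s1 : s (3 * z + 2 * z ^ 2 + z ^ 3) = z + 3 * z ^ 2 + 2 * z ^ 4 := by
    simp only [map_add, map_mul, map_ofNat, map_pow, h.hs]
    linear_combination (z) * hz5
  have s2 : s (z + 3 * z ^ 2 + 2 * z ^ 4) = z ^ 2 + 2 * z ^ 3 + 3 * z ^ 4 := by
    simp only [map_add, map_mul, map_ofNat, map_pow, h.hs]
    linear_combination (2 * z ^ 3) * hz5
  have s3 : s (z ^ 2 + 2 * z ^ 3 + 3 * z ^ 4) = 2 * z + 3 * z ^ 3 + z ^ 4 := by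
    simp only [map_add, map_mul, map_ofNat, map_pow, h.hs]
    linear_combination (2 * z + 3 * z ^ 3) * hz5
  refine h.key hr (a := a) (B := 3 * z + 2 * z ^ 2 + z ^ 3) ?_ ?_ ?_ hb ?_ hcop hRr hg
  · rw [s1]
    refine ⟨-2 - 4 * z - 2 * z ^ 2 - 2 * z ^ 3, ?_⟩
    linear_combination (10 - 6 * z + 2 * z ^ 2 - 4 * z ^ 3) * hz
  · rw [s1, s2]
    refine ⟨-2 - 4 * z - 4 * z ^ 3, ?_⟩
    linear_combination (10 - 4 * z + 8 * z ^ 2 - 12 * z ^ 3) * hz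
  · rw [s1, s2, s3]
    refine ⟨-2 * z ^ 2 + 2 * z ^ 3, ?_⟩
    linear_combination (10 - 10 * z + 2 * z ^ 3) * hz
  · rw [s1, s2, s3]
    push_cast
    linear_combination ((-41)*z^0*(a:O)^0*(b:O)^4 + (51)*z^0*(a:O)^1*(b:O)^3 + (-26)*z^0*(a:O)^2*(b:O)^2 + (6)*z^0*(a:O)^3*(b:O)^1 + (41)*z^1*(a:O)^0*(b:O)^4 + (-51)*z^1*(a:O)^1*(b:O)^3 + (26)*z^1*(a:O)^2*(b:O)^2 + (11)*z^2*(a:O)^2*(b:O)^2 + (6)*z^3*(a:O)^1*(b:O)^3 + (16)*z^3*(a:O)^2*(b:O)^2 + (27)*z^4*(a:O)^1*(b:O)^3 + (11)*z^4*(a:O)^2*(b:O)^2 + (-35)*z^5*(a:O)^0*(b:O)^4 + (84)*z^5*(a:O)^1*(b:O)^3 + (69)*z^6*(a:O)^0*(b:O)^4 + (33)*z^6*(a:O)^1*(b:O)^3 + (51)*z^7*(a:O)^0*(b:O)^4 + (27)*z^7*(a:O)^1*(b:O)^3 + (81)*z^8*(a:O)^0*(b:O)^4 + (6)*z^8*(a:O)^1*(b:O)^3 + (51)*z^9*(a:O)^0*(b:O)^4 + (28)*z^10*(a:O)^0*(b:O)^4 + (6)*z^11*(a:O)^0*(b:O)^4)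 * hz

end Cyc5

end Pool.Agent.KS6_83.E5
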