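import Pool.Agent.KS6_83.E5.CycAbs

/-!
# The key lemma: no primary element of norm `q ^ g * r ^ 5`

(Adapted from the library module
`Pool.Graph.R_pool_sql_team_seeded_47a924f7.T6.H9.Q5.CycAbs`, where `q = 11`.)
-/

set_option autoImplicit false

namespace Pool.Agent.KS6_83.E5

/-- what we use of a prime element of norm `q` -/
structure Rho {O : Type} [CommRing O] (z : O) (s : O →+* O) (q : ℤ) (ρ : O) : Prop where
  prod : ρ * s ρ * s (s ρ) * s (s (s ρ)) = q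
  prime : Prime ρ
  five : ¬ 5 ∣ q
  qp : Prime q
  conj : ∀ t : ℕ, ¬ (5 : O) ∣ (-z) ^ t * ρ - s (s ρ)

variable {O : Type} [CommRing O] {z : O} {s : O →+* O}

namespace Cyc5

variable (h : Cyc5 O z s) {q : ℤ} {ρ : O} (hr : Rho z s q ρ)
include h hr

lemma q_ne : (q : O) ≠ 0 := by
  intro h0
  exact hr.qp.ne_zero (h.int_inj h0)

/-- the key lemma, when `ρ` divides the element -/
lemma key0 [IsDomain O] [IsPrincipalIdealRing O] {a b R r : ℤ} {g : ℕ} {B : O}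
    (hB1 : B - s B ∣ 10) (hB2 : B - s (s B) ∣ 10) (hB3 : B - s (s (s B)) ∣ 10) (hb : 5 ∣ b)
    (hR : (a + b * B) * (a + b * s B) * (a + b * s (s B)) * (a + b * s (s (s B))) = (R : O))
    (hcop : IsCoprime R (10 * b)) (hRr : R = q ^ g * r ^ 5) (hg : ¬ 5 ∣ g)
    (hdiv : ρ ∣ (a + b * B : O)) : False := by
  set ν : O := a + b * B with hν
  have hs1 : s ν = a + b * s B := by rw [hν]; simp
  have hs2 : s (s ν) = a + b * s (s B) := by rw [hν]; simp
  have hs3 : s (s (s ν)) = a + b * s (s (s B)) := by rw [hν]; simp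
  have hR' : ν * (s ν * s (s ν) * s (s (s ν))) = (R : O) := by
    rw [hs3, hs2, hs1, ← hR]; ring
  have hνR : ν ∣ (R : O) := ⟨_, hR'.symm⟩
  have hcopO : IsCoprime (R : O) (10 * b) := by
    have := hcop.map (Int.castRingHom O)
    simpa using this
  have hcopν : IsCoprime ν (10 * b) := hcopO.of_isCoprime_of_dvd_left hνR
  -- coprimality with the conjugates
  have hcc : ∀ B' : O, B - B' ∣ 10 → IsCoprime ν (a + b * B') := by
    intro B' hB'
    have h1 : IsCoprime ν (b * (B - B')) := by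
      apply hcopν.of_isCoprime_of_dvd_right
      rw [mul_comm]
      exact mul_dvd_mul_right hB' _
    have h2 : (a + b * B' : O) = -(b * (B - B')) + ν * 1 := by rw [hν]; ring
    rw [h2]
    exact (IsCoprime.add_mul_left_right_iff).2 h1.neg_right
  have hc1 : IsCoprime ν (s ν) := by rw [hs1]; exact hcc _ hB1
  have hc2 : IsCoprime ν (s (s ν)) := by rw [hs2]; exact hcc _ hB2
  have hc3 : IsCoprime ν (s (s (s ν))) := by rw [hs3]; exact hcc _ hB3
  have hc : IsCoprime ν (s ν * s (s ν) * s (s (s ν))) := (hc1.mul_right hc2).mul_right hc3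
  have hρ := hr.prime
  have hρnot : ¬ ρ ∣ s ν * s (s ν) * s (s (s ν)) := by
    intro h1
    exact hρ.not_isUnit (hc.isUnit_of_dvd' hdiv h1)
  have hpow : ρ ^ g ∣ ν := by
    apply hρ.pow_dvd_of_dvd_mul_right g hρnot
    rw [hR', hRr]
    push_cast
    apply Dvd.dvd.mul_right
    apply pow_dvd_pow_of_dvd
    rw [← hr.prod, mul_assoc, mul_assoc]
    exact dvd_mul_right _ _
  obtain ⟨δ, hδ⟩ := hpow
  have hδprod : δ * (s δ * s (s δ) * s (s (s δ))) = (r : O) ^ 5 := by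
    have h11 : (q : O) ^ g ≠ 0 := pow_ne_zero _ (h.q_ne hr)
    apply mul_left_cancel₀ h11
    have h1 := hR'
    rw [hRr, hδ] at h1
    simp only [map_mul, map_pow] at h1
    push_cast at h1
    rw [← h1, ← hr.prod, mul_pow, mul_pow, mul_pow]
    ring
  have hδν : δ ∣ ν := ⟨_, by rw [hδ, mul_comm]⟩
  have hδ1 : s δ ∣ s ν := map_dvd s hδν
  have hδ2 : s (s δ) ∣ s (s ν) := map_dvd s hδ1
  have hδ3 : s (s (s δ)) ∣ s (s (s ν)) := map_dvd s hδ2
  have hcδ : IsCoprime δ (s δ * s (s δ) * s (s (s δ))) :=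
    (hc.of_isCoprime_of_dvd_left hδν).of_isCoprime_of_dvd_right
      (mul_dvd_mul (mul_dvd_mul hδ1 hδ2) hδ3)
  obtain ⟨e, he⟩ := exists_associated_pow_of_mul_eq_pow' hcδ hδprod
  obtain ⟨u, hu⟩ := he
  -- reduction modulo `5`
  let π := Ideal.Quotient.mk (Ideal.span {(5 : O)})
  have hπ : ∀ x y : O, (5 : O) ∣ x - y ↔ π x = π y := by
    intro x y
    rw [Ideal.Quotient.eq, Ideal.mem_span_singleton]
  have hπν : π ν = π a := by
    rw [← hπ, hν]
    obtain ⟨c, rfl⟩ := hb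
    exact ⟨c * B, by push_cast; ring⟩
  have hπsν : π (s (s ν)) = π a := by
    rw [← hπ, hs2]
    obtain ⟨c, rfl⟩ := hb
    exact ⟨c * s (s B), by push_cast; ring⟩
  have hunit : IsUnit (π ν) := by
    have h1 : IsCoprime ν 5 := hcopν.of_isCoprime_of_dvd_right ⟨2 * b, by ring⟩
    obtain ⟨x, y, hxy⟩ := h1
    apply IsUnit.of_mul_eq_one (π x)
    rw [← map_mul, ← map_one π, ← hπ]
    exact ⟨-y, by linear_combination hxy⟩
  obtain ⟨d, hd⟩ := h.pow5_int e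
  have hd' : (5 : O) ∣ (s (s e)) ^ 5 - d := by
    have h1 := map_dvd s (map_dvd s hd)
    simpa only [map_sub, map_pow, map_intCast, map_ofNat] using h1
  rw [hπ] at hd hd'
  obtain ⟨t, ht⟩ := h.unit u
  have e1 : π (s (s ν)) = π (s (s ρ)) ^ g * (π d * π (s (s u))) := by
    rw [hδ, ← hu]
    simp only [map_mul, map_pow]
    rw [← map_pow, ← map_pow] at hd'
    rw [← hd']
    simp only [map_pow]
  have e2 : π ν = π ρ ^ g * (π d * (π (-z) ^ t * π (s (s u)))) := by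
    rw [hδ, ← hu, ← hd, ← map_pow π (-z), ← map_mul π ((-z) ^ t), ← ht]
    simp only [map_mul, map_pow]
  have hw : IsUnit (π d * π (s (s u))) := by
    apply isUnit_of_mul_isUnit_right (x := π (s (s ρ)) ^ g)
    rw [← e1, hπsν, ← hπν]
    exact hunit
  have e3 : π (-z) ^ t * π ρ ^ g = π (s (s ρ)) ^ g := by
    apply hw.mul_right_cancel
    rw [← e1, hπsν, ← hπν, e2]
    ring
  obtain ⟨l, hl⟩ := h.pow5_int ρ
  have hl' : (5 : O) ∣ (s (s ρ)) ^ 5 - l := by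
    have h1 := map_dvd s (map_dvd s hl)
    simpa only [map_sub, map_pow, map_intCast, map_ofNat] using h1
  rw [hπ] at hl hl'
  have hρ5 : π ρ ^ 5 = π l := by rw [← map_pow]; exact hl
  have hρ5' : π (s (s ρ)) ^ 5 = π l := by rw [← map_pow]; exact hl'
  obtain ⟨f, k, hfk⟩ : ∃ f k : ℕ, g * f = 5 * k + 1 := by
    have : g % 5 = 1 ∨ g % 5 = 2 ∨ g % 5 = 3 ∨ g % 5 = 4 := by omega
    rcases this with h1 | h1 | h1 | h1
    · exact ⟨1, g / 5, by omega⟩
    · exact ⟨3, (3 * g) / 5, by omega⟩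
    · exact ⟨2, (2 * g) / 5, by omega⟩
    · exact ⟨4, (4 * g) / 5, by omega⟩
  have hρu : IsUnit (π ρ) := by
    have h1 : IsCoprime (q : O) 5 := by
      have h2 : IsCoprime q 5 :=
        ((show Prime (5 : ℤ) by norm_num).coprime_iff_not_dvd.2 hr.five).symm
      have := h2.map (Int.castRingHom O)
      simpa using this
    have h2 : IsCoprime ρ 5 := by
      apply h1.of_isCoprime_of_dvd_left
      rw [← hr.prod, mul_assoc, mul_assoc]
      exact dvd_mul_right _ _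
    obtain ⟨x, y, hxy⟩ := h2
    apply IsUnit.of_mul_eq_one (π x)
    rw [← map_mul, ← map_one π, ← hπ]
    exact ⟨-y, by linear_combination hxy⟩
  have h3u : IsUnit ((π l : O ⧸ Ideal.span {(5 : O)}) ^ k) := by
    apply IsUnit.pow
    rw [← hρ5]
    exact hρu.pow 5
  have e4 : π (-z) ^ (t * f) * π ρ = π (s (s ρ)) := by
    apply h3u.mul_left_cancel
    have h1 := congrArg (fun x => x ^ f) e3
    simp only [mul_pow, ← pow_mul] at h1
    rw [hfk, pow_succ, pow_succ, pow_mul (π ρ), hρ5, pow_mul (π (s (s ρ))), hρ5'] at h1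
    rw [← h1, pow_mul]
    ring
  rw [← map_pow, ← map_mul, ← hπ] at e4
  exact hr.conj _ e4

/-- the key lemma -/
lemma key [IsDomain O] [IsPrincipalIdealRing O] {a b R r : ℤ} {g : ℕ} {B : O}
    (hB1 : B - s B ∣ 10) (hB2 : B - s (s B) ∣ 10) (hB3 : B - s (s (s B)) ∣ 10) (hb : 5 ∣ b)
    (hR : (a + b * B) * (a + b * s B) * (a + b * s (s B)) * (a + b * s (s (s B))) = (R : O))
    (hcop : IsCoprime R (10 * b)) (hRr : R = q ^ g * r ^ 5) (hg : ¬ 5 ∣ g) : False := by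
  have hs10 : s 10 = 10 := map_ofNat s 10
  have C1 : s B - s (s B) ∣ 10 := by
    have := map_dvd s hB1
    rwa [map_sub, hs10] at this
  have C2 : s B - s (s (s B)) ∣ 10 := by
    have := map_dvd s hB2
    rwa [map_sub, hs10] at this
  have C3 : s (s B) - s (s (s B)) ∣ 10 := by
    have := map_dvd s C1
    rwa [map_sub, hs10] at this
  have neg : ∀ x y : O, x - y ∣ 10 → y - x ∣ 10 := by
    intro x y hxy
    rw [← neg_sub, neg_dvd]
    exact hxy
  have hρ := hr.prime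
  have hg0 : g ≠ 0 := by
    rintro rfl
    exact hg (dvd_zero 5)
  have hdiv : ρ ∣ (a + b * B) * (a + b * s B) * (a + b * s (s B)) * (a + b * s (s (s B))) := by
    rw [hR, hRr]
    push_cast
    apply Dvd.dvd.mul_right
    apply dvd_pow _ hg0
    rw [← hr.prod, mul_assoc, mul_assoc]
    exact dvd_mul_right _ _
  have h4 := h.s4 B
  rcases hρ.dvd_or_dvd hdiv with h1 | h1
  · rcases hρ.dvd_or_dvd h1 with h2 | h2
    · rcases hρ.dvd_or_dvd h2 with h3 | h3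
      · exact h.key0 hr hB1 hB2 hB3 hb hR hcop hRr hg h3
      · refine h.key0 hr (B := s B) C1 C2 ?_ hb ?_ hcop hRr hg h3
        · rw [h4]; exact neg _ _ hB1
        · rw [h4, ← hR]; ring
    · refine h.key0 hr (B := s (s B)) C3 ?_ ?_ hb ?_ hcop hRr hg h2
      · rw [h4]; exact neg _ _ hB2
      · rw [h4]; exact neg _ _ C1
      · rw [h4, ← hR]; ring
  · refine h.key0 hr (B := s (s (s B))) ?_ ?_ ?_ hb ?_ hcop hRr hg h1
    · rw [h4]; exact neg _ _ hB3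
    · rw [h4]; exact neg _ _ C2
    · rw [h4]; exact neg _ _ C3
    · rw [h4, ← hR]; ring

/-- the first application -/
theorem app1 [IsDomain O] [IsPrincipalIdealRing O] {a b r : ℤ} {g : ℕ} (hb : 5 ∣ b)
    (hcop : IsCoprime (a ^ 4 + 10 * a ^ 2 * b ^ 2 + 5 * b ^ 4) (10 * b))
    (hRr : a ^ 4 + 10 * a ^ 2 * b ^ 2 + 5 * b ^ 4 = q ^ g * r ^ 5) (hg : ¬ 5 ∣ g) : False := by
  have hz5 := h.z5
  have hz := h.hz
  have s1 : s (z + z ^ 2 - z ^ 3 - z ^ 4) = -z + z ^ 2 - z ^ 3 + z ^ 4 := by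
    simp only [map_add, map_sub, map_pow, h.hs]
    linear_combination (-(z + z ^ 3)) * hz5
  have s2 : s (-z + z ^ 2 - z ^ 3 + z ^ 4) = -z - z ^ 2 + z ^ 3 + z ^ 4 := by
    simp only [map_add, map_sub, map_neg, map_pow, h.hs]
    linear_combination (-z + z ^ 3) * hz5
  have s3 : s (-z - z ^ 2 + z ^ 3 + z ^ 4) = z - z ^ 2 + z ^ 3 - z ^ 4 := by
    simp only [map_add, map_sub, map_neg, map_pow, h.hs]
    linear_combination (z + z ^ 3) * hz5
  refine h.key hr (a := a) (B := z + z ^ 2 - z ^ 3 - z ^ 4) ?_ ?_ ?_ hb ?_ hcop hRr hg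
  · rw [s1]
    refine ⟨-2 - 4 * z - z ^ 2 - 3 * z ^ 3, ?_⟩
    linear_combination (10 - 6 * z + 4 * z ^ 2 - 6 * z ^ 3) * hz
  · rw [s1, s2]
    refine ⟨1 + 2 * z - 2 * z ^ 2 + 4 * z ^ 3, ?_⟩
    linear_combination (10 - 12 * z - 4 * z ^ 2 + 8 * z ^ 3) * hz
  · rw [s1, s2, s3]
    refine ⟨-1 - 2 * z - 3 * z ^ 2 + z ^ 3, ?_⟩
    linear_combination (10 - 10 * z + 2 * z ^ 2) * hz
  · rw [s1, s2, s3]
    push_cast
    linear_combination ((-5)*(b:O)^4 + (-10)*(a:O)^2*b^2 + 5*z*b^4 + 10*z*a^2*b^2 + (-2)*z^2*a^2*b^2 + 2*z^3*a^2*b^2 + 1*z^4*b^4 + (-2)*z^4*a^2*b^2 + (-6)*z^5*b^4 + 3*z^6*b^4 + 2*z^7*b^4 + (-1)*z^8*b^4 + 2*z^9*b^4 + (-2)*z^10*b^4 + (-1)*z^11*b^4 + 1*z^12*b^4) * hz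

/-- the second application -/
theorem app2 [IsDomain O] [IsPrincipalIdealRing O] {a b r : ℤ} {g : ℕ} (hb : 5 ∣ b)
    (hcop : IsCoprime (a ^ 4 + 50 * a ^ 2 * b ^ 2 + 125 * b ^ 4) (10 * b))
    (hRr : a ^ 4 + 50 * a ^ 2 * b ^ 2 + 125 * b ^ 4 = q ^ g * r ^ 5) (hg : ¬ 5 ∣ g) : False := by
  have hz5 := h.z5
  have hz := h.hz
  have s1 : s (3 * z + z ^ 2 - z ^ 3 - 3 * z ^ 4) = -z + 3 * z ^ 2 - 3 * z ^ 3 + z ^ 4 := by
    simp only [map_add, map_sub, map_mul, map_ofNat, map_pow, h.hs]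
    linear_combination (-(z + 3 * z ^ 3)) * hz5
  have s2 : s (-z + 3 * z ^ 2 - 3 * z ^ 3 + z ^ 4) = -3 * z - z ^ 2 + z ^ 3 + 3 * z ^ 4 := by
    simp only [map_add, map_sub, map_neg, map_mul, map_ofNat, map_pow, h.hs]
    linear_combination (-3 * z + z ^ 3) * hz5
  have s3 : s (-3 * z - z ^ 2 + z ^ 3 + 3 * z ^ 4) = z - 3 * z ^ 2 + 3 * z ^ 3 - z ^ 4 := by
    simp only [map_add, map_sub, map_neg, map_mul, map_ofNat, map_pow, h.hs]
    linear_combination (z + 3 * z ^ 3) * hz5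
  refine h.key hr (a := a) (B := 3 * z + z ^ 2 - z ^ 3 - 3 * z ^ 4) ?_ ?_ ?_ hb ?_ hcop hRr hg
  · rw [s1]
    refine ⟨-1 - 2 * z - z ^ 2 - z ^ 3, ?_⟩
    linear_combination (10 - 6 * z + 2 * z ^ 2 - 4 * z ^ 3) * hz
  · rw [s1, s2]
    refine ⟨-1 - 2 * z - 2 * z ^ 3, ?_⟩
    linear_combination (10 - 4 * z + 8 * z ^ 2 - 12 * z ^ 3) * hz
  · rw [s1, s2, s3]
    refine ⟨-z ^ 2 + z ^ 3, ?_⟩
    linear_combination (10 - 10 * z + 2 * z ^ 3) * hz
  · rw [s1, s2, s3]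
    push_cast
    linear_combination ((-125)*(b:O)^4 + (-50)*(a:O)^2*b^2 + 125*z*b^4 + 50*z*a^2*b^2 + (-10)*z^2*a^2*b^2 + 10*z^3*a^2*b^2 + 9*z^4*b^4 + (-10)*z^4*a^2*b^2 + (-182)*z^5*b^4 + 267*z^6*b^4 + (-174)*z^7*b^4 + 135*z^8*b^4 + (-174)*z^9*b^4 + 142*z^10*b^4 + (-57)*z^11*b^4 + 9*z^12*b^4) * hz

omit hr in
/-- `u + v z` is as in `Rho` -/
theorem rho [IsDomain O] [IsPrincipalIdealRing O] {u v q : ℤ} (hq : Prime q)
    (hquv : q = u ^ 4 - u ^ 3 * v + u ^ 2 * v ^ 2 - u * v ^ 3 + v ^ 4) (hv : ¬ 5 ∣ v)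
    (huv : 5 ∣ u - 2 * v ∨ 5 ∣ u + 2 * v) : Rho z s q (u + v * z : O) := by
  have hz5 := h.z5
  have hz := h.hz
  have s1 : s (u + v * z) = u + v * z ^ 2 := by
    simp only [map_add, map_mul, map_intCast, h.hs]
  have s2 : s (u + v * z ^ 2) = u + v * z ^ 4 := by
    simp only [map_add, map_mul, map_pow, map_intCast, h.hs]; ring
  have s3 : s (u + v * z ^ 4) = u + v * z ^ 3 := by
    simp only [map_add, map_mul, map_pow, map_intCast, h.hs]
    linear_combination ((v : O) * z ^ 3) * hz5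
  have hprod : (u + v * z : O) * s (u + v * z) * s (s (u + v * z)) * s (s (s (u + v * z))) =
      (q : O) := by
    rw [s1, s2, s3, hquv]
    push_cast
    linear_combination ((u : O) ^ 3 * v + (u : O) * v ^ 3 + (u : O) ^ 2 * v ^ 2 * z ^ 2) * hz +
      ((u : O) ^ 2 * v ^ 2 * (1 + z ^ 2) + (u : O) * v ^ 3 * (z + z ^ 4 + z ^ 2 + z ^ 3) + v ^ 4 * (z ^ 5 + 1)) * hz5
  refine ⟨hprod, h.prime_of_norm hq hprod, ?_, hq, ?_⟩
  · intro h5
    rw [hquv] at h5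
    rcases huv with ⟨w, hw⟩ | ⟨w, hw⟩
    · have e : u = 2 * v + 5 * w := by omega
      apply hv
      apply (show Prime (5 : ℤ) by norm_num).dvd_of_dvd_pow (n := 4)
      rw [e] at h5
      have e2 : v ^ 4 = ((2 * v + 5 * w) ^ 4 - (2 * v + 5 * w) ^ 3 * v + (2 * v + 5 * w) ^ 2 * v ^ 2
        - (2 * v + 5 * w) * v ^ 3 + v ^ 4) - 5 * (2 * v ^ 4 + 23 * v ^ 3 * w + 95 * v ^ 2 * w ^ 2 +
          175 * v * w ^ 3 + 125 * w ^ 4) := by ring
      rw [e2]
      exact dvd_sub h5 (dvd_mul_right _ _)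
    · have e : u = -2 * v + 5 * w := by omega
      apply hv
      apply (show Prime (5 : ℤ) by norm_num).dvd_of_dvd_pow (n := 4)
      rw [e] at h5
      have e2 : v ^ 4 = ((-2 * v + 5 * w) ^ 4 - (-2 * v + 5 * w) ^ 3 * v +
        (-2 * v + 5 * w) ^ 2 * v ^ 2 - (-2 * v + 5 * w) * v ^ 3 + v ^ 4) -
          5 * (6 * v ^ 4 - 49 * v ^ 3 * w + 155 * v ^ 2 * w ^ 2 - 225 * v * w ^ 3 + 125 * w ^ 4) := by
        ring
      rw [e2]
      exact dvd_sub h5 (dvd_mul_right _ _)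
  · intro t ht
    rw [s1, s2] at ht
    exact h.rho_conj hv huv t ht

end Cyc5

end Pool.Agent.KS6_83.E5
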