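import Pool.Agent.KS6_83.E5.CycKey

/-!
# The ring `ℤ[ζ₅]`

The ring of integers of the fifth cyclotomic field satisfies `Cyc5` (copied from the library module
`Pool.Graph.R_pool_sql_team_seeded_47a924f7.T6.H9.Q5.CycRing`).
-/

set_option autoImplicit false
set_option linter.unusedSectionVars false

namespace Pool.Agent.KS6_83.E5

open NumberField IsCyclotomicExtension Polynomial

variable {K : Type} [Field K] [NumberField K] [hK : IsCyclotomicExtension {5} ℚ K]
  {ζ : K} (hζ : IsPrimitiveRoot ζ 5)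

include hζ

lemma ring_hz : 1 + hζ.toInteger + hζ.toInteger ^ 2 + hζ.toInteger ^ 3 + hζ.toInteger ^ 4 = 0 := by
  have h := hζ.toInteger_isPrimitiveRoot.geom_sum_eq_zero (by norm_num)
  simpa [Finset.sum_range_succ] using h

lemma ring_rep (x : 𝓞 K) : ∃ a b c d : ℤ, x = a + b * hζ.toInteger + c * hζ.toInteger ^ 2 +
    d * hζ.toInteger ^ 3 := by
  have hdim : hζ.integralPowerBasis.dim = 4 := by
    rw [hζ.integralPowerBasis_dim]; decide
  obtain ⟨f, hf, hx⟩ := hζ.integralPowerBasis.exists_eq_aeval x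
  rw [hdim] at hf
  rw [hζ.integralPowerBasis_gen, aeval_eq_sum_range' hf] at hx
  refine ⟨f.coeff 0, f.coeff 1, f.coeff 2, f.coeff 3, ?_⟩
  rw [hx]
  simp [Finset.sum_range_succ]

lemma ring_ind (a b c d : ℤ) (h : (a : 𝓞 K) + b * hζ.toInteger + c * hζ.toInteger ^ 2 +
    d * hζ.toInteger ^ 3 = 0) : a = 0 ∧ b = 0 ∧ c = 0 ∧ d = 0 := by
  have hdim : hζ.integralPowerBasis.dim = 4 := by
    rw [hζ.integralPowerBasis_dim]; decide
  by_contra hcon
  set p : ℤ[X] := C a + C b * X + C c * X ^ 2 + C d * X ^ 3 with hp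
  have hroot : aeval hζ.integralPowerBasis.gen p = 0 := by
    rw [hζ.integralPowerBasis_gen, hp]
    simpa using h
  have hp0 : p ≠ 0 := by
    intro h0
    apply hcon
    have h1 := congrArg (fun q => q.coeff 0) h0
    have h2 := congrArg (fun q => q.coeff 1) h0
    have h3 := congrArg (fun q => q.coeff 2) h0
    have h4 := congrArg (fun q => q.coeff 3) h0
    simp [hp, coeff_X, coeff_C, -eq_intCast, -map_intCast] at h1 h2 h3 h4
    exact ⟨h1, h2, h3, h4⟩
  have h1 := hζ.integralPowerBasis.dim_le_natDegree_of_root hp0 hroot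
  rw [hdim] at h1
  have h2 : p.natDegree ≤ 3 := by
    rw [hp]; compute_degree
  omega

omit hζ in
lemma ring_s (hζ : IsPrimitiveRoot (zeta 5 ℚ K) 5) :
    ∃ s : 𝓞 K →+* 𝓞 K, s hζ.toInteger = hζ.toInteger ^ 2 := by
  have hirr : Irreducible (cyclotomic 5 ℚ) := cyclotomic.irreducible_rat (by norm_num)
  have h2 : IsPrimitiveRoot ((zeta 5 ℚ K) ^ 2) 5 := hζ.pow_of_coprime 2 (by decide)
  have h3 := fromZetaAut_spec h2 hirr
  set u := fromZetaAut h2 hirr with hu
  refine ⟨RingOfIntegers.mapRingHom ((u : K ≃+* K) : K →+* K), ?_⟩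
  apply RingOfIntegers.ext
  rw [RingOfIntegers.mapRingHom_apply]
  exact h3

lemma ring_unit (s : 𝓞 K →+* 𝓞 K) (hs : s hζ.toInteger = hζ.toInteger ^ 2) (η : (𝓞 K)ˣ) :
    ∃ t : ℕ, (η : 𝓞 K) = (-hζ.toInteger) ^ t * s (s η) := by
  have hCM : IsCMField K := IsCyclotomicExtension.Rat.isCMField K (S := {5}) ⟨5, rfl, by norm_num⟩
  have hodd : Odd 5 := by decide
  -- complex conjugation is `s ∘ s`
  set c : 𝓞 K →+* 𝓞 K := (IsCMField.ringOfIntegersComplexConj K : 𝓞 K →+* 𝓞 K) with hc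
  have hz5 : hζ.toInteger ^ 5 = 1 := hζ.toInteger_isPrimitiveRoot.pow_eq_one
  have hcz : c hζ.toInteger * hζ.toInteger = 1 := by
    set zu : (𝓞 K)ˣ := (hζ.toInteger_isPrimitiveRoot.isUnit (by norm_num)).unit with hzu
    have htor : zu ∈ Units.torsion K := by
      rw [Units.torsion, CommGroup.mem_torsion, isOfFinOrder_iff_pow_eq_one]
      refine ⟨5, by norm_num, ?_⟩
      ext
      push_cast
      exact_mod_cast congrArg (fun x : 𝓞 K => (x : K)) hz5
    have h1 := IsCMField.complexConj_torsion K ⟨zu, htor⟩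
    apply RingOfIntegers.ext
    change IsCMField.complexConj K ζ * ζ = 1
    have h2 : IsCMField.complexConj K ζ = ζ⁻¹ := h1
    rw [h2, inv_mul_cancel₀ (hζ.ne_zero (by norm_num))]
  have hcz' : c hζ.toInteger = hζ.toInteger ^ 4 := by
    calc c hζ.toInteger = c hζ.toInteger * hζ.toInteger ^ 5 := by rw [hz5, mul_one]
      _ = (c hζ.toInteger * hζ.toInteger) * hζ.toInteger ^ 4 := by ring
      _ = hζ.toInteger ^ 4 := by rw [hcz, one_mul]
  have hcs : ∀ x : 𝓞 K, c x = s (s x) := by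
    intro x
    obtain ⟨a, b, e, d, rfl⟩ := ring_rep hζ x
    simp only [map_add, map_mul, map_pow, map_intCast, hs, hcz']
    ring
  have h1 := (IsCMField.unitsMulComplexConjInv K η).2
  rw [IsCMField.unitsMulComplexConjInv_apply] at h1
  set t : (𝓞 K)ˣ := η * (IsCMField.unitsComplexConj K η)⁻¹ with ht
  have h2 : IsOfFinOrder (((t : (𝓞 K)ˣ) : 𝓞 K) : K) := by
    rw [Units.torsion, CommGroup.mem_torsion, isOfFinOrder_iff_pow_eq_one] at h1
    obtain ⟨n, hn, h3⟩ := h1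
    rw [isOfFinOrder_iff_pow_eq_one]
    refine ⟨n, hn, ?_⟩
    have h4 := congrArg (fun x : (𝓞 K)ˣ => ((x : 𝓞 K) : K)) h3
    simpa using h4
  obtain ⟨r, hr⟩ := hζ.exists_neg_pow_of_isOfFinOrder hodd h2
  refine ⟨r, ?_⟩
  have h5 : (t : 𝓞 K) = (-hζ.toInteger) ^ r := by
    apply RingOfIntegers.ext
    rw [hr]
    push_cast
    rfl
  have h6 : η = t * IsCMField.unitsComplexConj K η := by
    rw [ht, inv_mul_cancel_right]
  have h7 := congrArg (fun x : (𝓞 K)ˣ => (x : 𝓞 K)) h6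
  simp only [Units.val_mul] at h7
  rw [h5] at h7
  rw [← hcs]
  exact h7

omit hζ in
theorem exists_cyc5 : ∃ (O : Type) (_ : CommRing O) (_ : IsDomain O)
    (_ : IsPrincipalIdealRing O) (z : O) (s : O →+* O), Cyc5 O z s := by
  have hK : IsCyclotomicExtension {5} ℚ (CyclotomicField 5 ℚ) :=
    CyclotomicField.isCyclotomicExtension 5 ℚ
  have hζ : IsPrimitiveRoot (zeta 5 ℚ (CyclotomicField 5 ℚ)) 5 :=
    zeta_spec 5 ℚ (CyclotomicField 5 ℚ)
  obtain ⟨s, hs⟩ := ring_s hζ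
  exact ⟨𝓞 (CyclotomicField 5 ℚ), inferInstance, inferInstance,
    IsCyclotomicExtension.Rat.five_pid (CyclotomicField 5 ℚ), hζ.toInteger, s,
    ring_hz hζ, hs, ring_rep hζ, ring_ind hζ, ring_unit hζ s hs⟩

end Pool.Agent.KS6_83.E5
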