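import Pool.Agent.KS6_83.E5.CycKey

/-!
# Prime elements of `ℤ[ζ₅]` which are not primary up to roots of unity
-/

set_option autoImplicit false

namespace Pool.Agent.KS6_83.E5

/-- the condition modulo `5` (for `a + b ζ + c ζ² + d ζ³`) -/
def Cnd {R : Type} [CommRing R] (a b c d : R) : R :=
  (b + 8 * c + 27 * d) * (a + b + c + d) ^ 2 -
    3 * (a + b + c + d) * (b + 2 * c + 3 * d) * (b + 4 * c + 9 * d) +
    2 * (b + 2 * c + 3 * d) ^ 3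

set_option synthInstance.maxSize 4096 in
lemma dec0 : ∀ a b c d : ZMod 5, a + b + c + d ≠ 0 → 0 - ((-1)*b) = 0 → ((1)*b) - ((-1)*b) = 0 → ((1)*c + (-1)*d) - ((-1)*b) = 0 → ((1)*d + (-1)*c) - ((-1)*b) = 0 →
    Cnd a b c d = 0 := by
  unfold Cnd
  decide +kernel

set_option synthInstance.maxSize 4096 in
lemma dec1 : ∀ a b c d : ZMod 5, a + b + c + d ≠ 0 → ((-1)*a) - ((-1)*d + (-1)*b) = 0 → ((-1)*a) - ((-1)*d + (-1)*b) = 0 → ((-1)*b + (-1)*d) - ((-1)*d + (-1)*b) = 0 → ((-2)*c) - ((-1)*d + (-1)*b) = 0 →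
    Cnd a b c d = 0 := by
  unfold Cnd
  decide +kernel

set_option synthInstance.maxSize 4096 in
lemma dec2 : ∀ a b c d : ZMod 5, a + b + c + d ≠ 0 → ((1)*d + (-1)*a) - ((1)*c + (-1)*b) = 0 → 0 - ((1)*c + (-1)*b) = 0 → ((1)*a + (-1)*d) - ((1)*c + (-1)*b) = 0 → ((1)*b + (-1)*c) - ((1)*c + (-1)*b) = 0 →
    Cnd a b c d = 0 := by
  unfold Cnd
  decide +kernel

set_option synthInstance.maxSize 4096 in
lemma dec3 : ∀ a b c d : ZMod 5, a + b + c + d ≠ 0 → ((-1)*c + (-1)*a) - ((-2)*b) = 0 → ((-1)*d) - ((-2)*b) = 0 → ((-1)*d) - ((-2)*b) = 0 → ((-1)*a + (-1)*c) - ((-2)*b) = 0 →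
    Cnd a b c d = 0 := by
  unfold Cnd
  decide +kernel

set_option synthInstance.maxSize 4096 in
lemma dec4 : ∀ a b c d : ZMod 5, a + b + c + d ≠ 0 → ((1)*b + (-1)*a) - ((1)*a + (-1)*b) = 0 → ((1)*c) - ((1)*a + (-1)*b) = 0 → 0 - ((1)*a + (-1)*b) = 0 → ((-1)*c) - ((1)*a + (-1)*b) = 0 →
    Cnd a b c d = 0 := by
  unfold Cnd
  decide +kernel

set_option synthInstance.maxSize 4096 in
lemma dec5 : ∀ a b c d : ZMod 5, a + b + c + d ≠ 0 → ((-2)*a) - ((-1)*b) = 0 → ((-1)*b) - ((-1)*b) = 0 → ((-1)*c + (-1)*d) - ((-1)*b) = 0 → ((-1)*d + (-1)*c) - ((-1)*b) = 0 →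
    Cnd a b c d = 0 := by
  unfold Cnd
  decide +kernel

set_option synthInstance.maxSize 4096 in
lemma dec6 : ∀ a b c d : ZMod 5, a + b + c + d ≠ 0 → ((-1)*a) - ((1)*d + (-1)*b) = 0 → ((1)*a) - ((1)*d + (-1)*b) = 0 → ((1)*b + (-1)*d) - ((1)*d + (-1)*b) = 0 → 0 - ((1)*d + (-1)*b) = 0 →
    Cnd a b c d = 0 := by
  unfold Cnd
  decide +kernel

set_option synthInstance.maxSize 4096 in
lemma dec7 : ∀ a b c d : ZMod 5, a + b + c + d ≠ 0 → ((-1)*d + (-1)*a) - ((-1)*c + (-1)*b) = 0 → 0 - ((-1)*c + (-1)*b) = 0 → ((-1)*a + (-1)*d) - ((-1)*c + (-1)*b) = 0 → ((-1)*b + (-1)*c) - ((-1)*c + (-1)*b) = 0 →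
    Cnd a b c d = 0 := by
  unfold Cnd
  decide +kernel

set_option synthInstance.maxSize 4096 in
lemma dec8 : ∀ a b c d : ZMod 5, a + b + c + d ≠ 0 → ((1)*c + (-1)*a) - 0 = 0 → ((1)*d) - 0 = 0 → ((-1)*d) - 0 = 0 → ((1)*a + (-1)*c) - 0 = 0 →
    Cnd a b c d = 0 := by
  unfold Cnd
  decide +kernel

set_option synthInstance.maxSize 4096 in
lemma dec9 : ∀ a b c d : ZMod 5, a + b + c + d ≠ 0 → ((-1)*b + (-1)*a) - ((-1)*a + (-1)*b) = 0 → ((-1)*c) - ((-1)*a + (-1)*b) = 0 → ((-2)*d) - ((-1)*a + (-1)*b) = 0 → ((-1)*c) - ((-1)*a + (-1)*b) = 0 →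
    Cnd a b c d = 0 := by
  unfold Cnd
  decide +kernel


variable {O : Type} [CommRing O] {z : O} {s : O →+* O}

lemma cnd_dvd {a b c d : ℤ} (h : Cnd (a : ZMod 5) b c d = 0) : 5 ∣ Cnd a b c d := by
  have e : ((Cnd a b c d : ℤ) : ZMod 5) = Cnd (a : ZMod 5) b c d := by
    unfold Cnd; push_cast; ring
  rw [← e] at h
  exact_mod_cast (ZMod.intCast_zmod_eq_zero_iff_dvd _ 5).1 h

lemma zc {a : ℤ} (h : 5 ∣ a) : (a : ZMod 5) = 0 :=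
  (ZMod.intCast_zmod_eq_zero_iff_dvd _ 5).2 (by exact_mod_cast h)

namespace Cyc5

variable (h : Cyc5 O z s)
include h

lemma rho_conj' {a b c d : ℤ} (hs : ¬ 5 ∣ a + b + c + d) (hcd : ¬ 5 ∣ Cnd a b c d) (t : ℕ)
    (h5 : (5 : O) ∣ (-z) ^ t * (a + b * z + c * z ^ 2 + d * z ^ 3) -
      (a + b * z ^ 4 + c * z ^ 3 + d * z ^ 2)) : False := by
  have hz10 : (-z) ^ 10 = 1 := by
    calc (-z) ^ 10 = (z ^ 5) ^ 2 := by ring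
      _ = 1 := by rw [h.z5]; ring
  have hred : (-z) ^ t = (-z) ^ (t % 10) := by
    conv_lhs => rw [← Nat.div_add_mod t 10, pow_add, pow_mul, hz10, one_pow, one_mul]
  rw [hred] at h5
  have hlt : t % 10 < 10 := Nat.mod_lt _ (by norm_num)
  have key : ∀ e0 e1 e2 e3 e4 : ℤ, (-z) ^ (t % 10) * (a + b * z + c * z ^ 2 + d * z ^ 3) -
      (a + b * z ^ 4 + c * z ^ 3 + d * z ^ 2) =
      e0 + e1 * z + e2 * z ^ 2 + e3 * z ^ 3 + e4 * z ^ 4 →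
      ((e0 - e4 : ℤ) : ZMod 5) = 0 ∧ ((e1 - e4 : ℤ) : ZMod 5) = 0 ∧
        ((e2 - e4 : ℤ) : ZMod 5) = 0 ∧ ((e3 - e4 : ℤ) : ZMod 5) = 0 := by
    intro e0 e1 e2 e3 e4 e5
    rw [e5] at h5
    obtain ⟨f1, f2, f3, f4⟩ := h.dvd5' h5
    exact ⟨zc f1, zc f2, zc f3, zc f4⟩
  have hs' : (a : ZMod 5) + b + c + d ≠ 0 := by
    intro h0
    apply hs
    have := (ZMod.intCast_zmod_eq_zero_iff_dvd (a + b + c + d) 5).1 (by push_cast; exact h0)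
    exact_mod_cast this
  apply hcd
  apply cnd_dvd
  generalize t % 10 = T at *
  interval_cases T
  · obtain ⟨f1, f2, f3, f4⟩ := key 0 ((1)*b) ((1)*c + (-1)*d) ((1)*d + (-1)*c) ((-1)*b) (by
      push_cast
      linear_combination (0) * h.z5)
    push_cast at f1 f2 f3 f4
    exact dec0 a b c d hs' (by linear_combination f1) (by linear_combination f2)
      (by linear_combination f3) (by linear_combination f4)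
  · obtain ⟨f1, f2, f3, f4⟩ := key ((-1)*a) ((-1)*a) ((-1)*b + (-1)*d) ((-2)*c) ((-1)*d + (-1)*b) (by
      push_cast
      linear_combination (0) * h.z5)
    push_cast at f1 f2 f3 f4
    exact dec1 a b c d hs' (by linear_combination f1) (by linear_combination f2)
      (by linear_combination f3) (by linear_combination f4)
  · obtain ⟨f1, f2, f3, f4⟩ := key ((1)*d + (-1)*a) 0 ((1)*a + (-1)*d) ((1)*b + (-1)*c) ((1)*c + (-1)*b) (by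
      push_cast
      linear_combination ((1)*(d:O)*z^0) * h.z5)
    push_cast at f1 f2 f3 f4
    exact dec2 a b c d hs' (by linear_combination f1) (by linear_combination f2)
      (by linear_combination f3) (by linear_combination f4)
  · obtain ⟨f1, f2, f3, f4⟩ := key ((-1)*c + (-1)*a) ((-1)*d) ((-1)*d) ((-1)*a + (-1)*c) ((-2)*b) (by
      push_cast
      linear_combination ((-1)*(c:O)*z^0 + (-1)*(d:O)*z^1) * h.z5)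
    push_cast at f1 f2 f3 f4
    exact dec3 a b c d hs' (by linear_combination f1) (by linear_combination f2)
      (by linear_combination f3) (by linear_combination f4)
  · obtain ⟨f1, f2, f3, f4⟩ := key ((1)*b + (-1)*a) ((1)*c) 0 ((-1)*c) ((1)*a + (-1)*b) (by
      push_cast
      linear_combination ((1)*(b:O)*z^0 + (1)*(c:O)*z^1 + (1)*(d:O)*z^2) * h.z5)
    push_cast at f1 f2 f3 f4
    exact dec4 a b c d hs' (by linear_combination f1) (by linear_combination f2)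
      (by linear_combination f3) (by linear_combination f4)
  · obtain ⟨f1, f2, f3, f4⟩ := key ((-2)*a) ((-1)*b) ((-1)*c + (-1)*d) ((-1)*d + (-1)*c) ((-1)*b) (by
      push_cast
      linear_combination ((-1)*(a:O)*z^0 + (-1)*(b:O)*z^1 + (-1)*(c:O)*z^2 + (-1)*(d:O)*z^3) * h.z5)
    push_cast at f1 f2 f3 f4
    exact dec5 a b c d hs' (by linear_combination f1) (by linear_combination f2)
      (by linear_combination f3) (by linear_combination f4)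
  · obtain ⟨f1, f2, f3, f4⟩ := key ((-1)*a) ((1)*a) ((1)*b + (-1)*d) 0 ((1)*d + (-1)*b) (by
      push_cast
      linear_combination ((1)*(a:O)*z^1 + (1)*(b:O)*z^2 + (1)*(c:O)*z^3 + (1)*(d:O)*z^4) * h.z5)
    push_cast at f1 f2 f3 f4
    exact dec6 a b c d hs' (by linear_combination f1) (by linear_combination f2)
      (by linear_combination f3) (by linear_combination f4)
  · obtain ⟨f1, f2, f3, f4⟩ := key ((-1)*d + (-1)*a) 0 ((-1)*a + (-1)*d) ((-1)*b + (-1)*c) ((-1)*c + (-1)*b) (by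
      push_cast
      linear_combination ((-1)*(a:O)*z^2 + (-1)*(b:O)*z^3 + (-1)*(c:O)*z^4 + (-1)*(d:O)*z^0*(z^5+1)) * h.z5)
    push_cast at f1 f2 f3 f4
    exact dec7 a b c d hs' (by linear_combination f1) (by linear_combination f2)
      (by linear_combination f3) (by linear_combination f4)
  · obtain ⟨f1, f2, f3, f4⟩ := key ((1)*c + (-1)*a) ((1)*d) ((-1)*d) ((1)*a + (-1)*c) 0 (by
      push_cast
      linear_combination ((1)*(a:O)*z^3 + (1)*(b:O)*z^4 + (1)*(c:O)*z^0*(z^5+1) + (1)*(d:O)*z^1*(z^5+1)) * h.z5)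
    push_cast at f1 f2 f3 f4
    exact dec8 a b c d hs' (by linear_combination f1) (by linear_combination f2)
      (by linear_combination f3) (by linear_combination f4)
  · obtain ⟨f1, f2, f3, f4⟩ := key ((-1)*b + (-1)*a) ((-1)*c) ((-2)*d) ((-1)*c) ((-1)*a + (-1)*b) (by
      push_cast
      linear_combination ((-1)*(a:O)*z^4 + (-1)*(b:O)*z^0*(z^5+1) + (-1)*(c:O)*z^1*(z^5+1) + (-1)*(d:O)*z^2*(z^5+1)) * h.z5)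
    push_cast at f1 f2 f3 f4
    exact dec9 a b c d hs' (by linear_combination f1) (by linear_combination f2)
      (by linear_combination f3) (by linear_combination f4)

/-- `a + b z + c z² + d z³` is as in `Rho` -/
theorem rho' [IsDomain O] [IsPrincipalIdealRing O] {a b c d q : ℤ} (hq : Prime q) (hq5 : q % 5 = 1)
    (hN : q = (a ^ 2 + b ^ 2 + c ^ 2 + d ^ 2 - (a * c + b * d + d * a)) ^ 2 -
      (a ^ 2 + b ^ 2 + c ^ 2 + d ^ 2 - (a * c + b * d + d * a)) *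
        (a * b + b * c + c * d - (a * c + b * d + d * a)) -
      (a * b + b * c + c * d - (a * c + b * d + d * a)) ^ 2)
    (hcd : ¬ 5 ∣ Cnd a b c d) : Rho z s q (a + b * z + c * z ^ 2 + d * z ^ 3 : O) := by
  have hz5 := h.z5
  have hz := h.hz
  have s1 : s (a + b * z + c * z ^ 2 + d * z ^ 3) = a + b * z ^ 2 + c * z ^ 4 + d * z := by
    simp only [map_add, map_mul, map_pow, map_intCast, h.hs]
    linear_combination ((d : O) * z) * hz5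
  have s2 : s (a + b * z ^ 2 + c * z ^ 4 + d * z) = a + b * z ^ 4 + c * z ^ 3 + d * z ^ 2 := by
    simp only [map_add, map_mul, map_pow, map_intCast, h.hs]
    linear_combination ((c : O) * z ^ 3) * hz5
  have s3 : s (a + b * z ^ 4 + c * z ^ 3 + d * z ^ 2) = a + b * z ^ 3 + c * z + d * z ^ 4 := by
    simp only [map_add, map_mul, map_pow, map_intCast, h.hs]
    linear_combination ((b : O) * z ^ 3 + (c : O) * z) * hz5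
  have hprod : (a + b * z + c * z ^ 2 + d * z ^ 3 : O) * s (a + b * z + c * z ^ 2 + d * z ^ 3) *
      s (s (a + b * z + c * z ^ 2 + d * z ^ 3)) * s (s (s (a + b * z + c * z ^ 2 + d * z ^ 3))) =
      (q : O) := by
    rw [s1, s2, s3, hN]
    push_cast
    linear_combination ((-1)*(d:O)^4 + (1)*(c:O)*(d:O)^3 + (-1)*(c:O)^2*(d:O)^2 + (1)*(c:O)^3*(d:O) + (-1)*(c:O)^4 + (1)*(b:O)*(d:O)^3 + (-2)*(b:O)*(c:O)*(d:O)^2 + (3)*(b:O)*(c:O)^2*(d:O) + (1)*(b:O)*(c:O)^3 + (-1)*(b:O)^2*(d:O)^2 + (-2)*(b:O)^2*(c:O)*(d:O) + (-1)*(b:O)^2*(c:O)^2 + (1)*(b:O)^3*(d:O) + (1)*(b:O)^3*(c:O) + (-1)*(b:O)^4 + (1)*(a:O)*(d:O)^3 + (-2)*(a:O)*(c:O)*(d:O)^2 + (-2)*(a:O)*(c:O)^2*(d:O) + (1)*(a:O)*(c:O)^3 + (3)*(a:O)*(b:O)*(d:O)^2 + (1)*(a:O)*(b:O)*(c:O)*(d:O) + (-2)*(a:O)*(b:O)*(c:O)^2 + (-2)*(a:O)*(b:O)^2*(d:O) + (3)*(a:O)*(b:O)^2*(c:O) +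 (1)*(a:O)*(b:O)^3 + (-1)*(a:O)^2*(d:O)^2 + (3)*(a:O)^2*(c:O)*(d:O) + (-1)*(a:O)^2*(c:O)^2 + (-2)*(a:O)^2*(b:O)*(d:O) + (-2)*(a:O)^2*(b:O)*(c:O) + (-1)*(a:O)^2*(b:O)^2 + (1)*(a:O)^3*(d:O) + (1)*(a:O)^3*(c:O) + (1)*(a:O)^3*(b:O) + (1)*z*(d:O)^4 + (-1)*z*(c:O)*(d:O)^3 + (1)*z*(c:O)^2*(d:O)^2 + (-1)*z*(c:O)^3*(d:O) + (1)*z*(c:O)^4 + (-1)*z*(b:O)*(d:O)^3 + (2)*z*(b:O)*(c:O)*(d:O)^2 + (-3)*z*(b:O)*(c:O)^2*(d:O) + (-1)*z*(b:O)*(c:O)^3 + (1)*z*(b:O)^2*(d:O)^2 + (2)*z*(b:O)^2*(c:O)*(d:O) + (1)*z*(b:O)^2*(c:O)^2 + (-1)*z*(b:O)^3*(d:O) + (-1)*z*(b:O)^3*(c:O) + (1)*z*(b:O)^4 + (-1)*z*(a:O)*(d:O)^3 + (2)*z*(a:O)*(c:O)*(d:O)^2 + (2)*z*(a:O)*(c:O)^2*(d:O) + (-1)*z*(a:O)*(c:O)^3 + (-3)*z*(a:O)*(b:O)*(d:O)^2 + (-1)*z*(a:O)*(b:O)*(c:O)*(d:O) + (2)*z*(a:O)*(b:O)*(c:O)^2 + (2)*z*(a:O)*(b:O)^2*(d:O) + (-3)*z*(a:O)*(b:O)^2*(c:O) +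 (-1)*z*(a:O)*(b:O)^3 + (1)*z*(a:O)^2*(d:O)^2 + (-3)*z*(a:O)^2*(c:O)*(d:O) + (1)*z*(a:O)^2*(c:O)^2 + (2)*z*(a:O)^2*(b:O)*(d:O) + (2)*z*(a:O)^2*(b:O)*(c:O) + (1)*z*(a:O)^2*(b:O)^2 + (1)*z^2*(a:O)^2*(c:O)*(d:O) + (1)*z^2*(a:O)^2*(b:O)*(d:O) + (1)*z^2*(a:O)^2*(b:O)*(c:O) + (1)*z^3*(a:O)*(b:O)*(c:O)*(d:O) + (1)*z^3*(a:O)^2*(d:O)^2 + (1)*z^3*(a:O)^2*(c:O)*(d:O) + (1)*z^3*(a:O)^2*(c:O)^2 + (1)*z^3*(a:O)^2*(b:O)^2 + (1)*z^4*(a:O)*(c:O)*(d:O)^2 + (1)*z^4*(a:O)*(c:O)^2*(d:O) + (1)*z^4*(a:O)*(b:O)*(d:O)^2 + (1)*z^4*(a:O)*(b:O)^2*(c:O) + (1)*z^4*(a:O)^2*(c:O)*(d:O) + (1)*z^4*(a:O)^2*(b:O)*(d:O) + (1)*z^4*(a:O)^2*(b:O)*(c:O) + (-1)*z^5*(d:O)^4 + (1)*z^5*(c:O)*(d:O)^3 + (-1)*z^5*(c:O)^2*(d:O)^2 + (1)*z^5*(c:O)^3*(d:O) + (-1)*z^5*(c:O)^4 + (1)*z^5*(b:O)*(d:O)^3 + (-1)*z^5*(b:O)*(c:O)*(d:O)^2 + (3)*z^5*(b:O)*(c:O)^2*(d:O) + (1)*z^5*(b:O)*(c:O)^3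 + (-1)*z^5*(b:O)^2*(d:O)^2 + (-2)*z^5*(b:O)^2*(c:O)*(d:O) + (-1)*z^5*(b:O)^2*(c:O)^2 + (1)*z^5*(b:O)^3*(d:O) + (1)*z^5*(b:O)^3*(c:O) + (-1)*z^5*(b:O)^4 + (1)*z^5*(a:O)*(d:O)^3 + (-1)*z^5*(a:O)*(c:O)*(d:O)^2 + (-1)*z^5*(a:O)*(c:O)^2*(d:O) + (1)*z^5*(a:O)*(c:O)^3 + (2)*z^5*(a:O)*(b:O)*(d:O)^2 + (2)*z^5*(a:O)*(b:O)*(c:O)*(d:O) + (2)*z^5*(a:O)*(b:O)^2*(c:O) + (1)*z^5*(a:O)*(b:O)^3 + (1)*z^6*(d:O)^4 + (-1)*z^6*(c:O)*(d:O)^3 + (2)*z^6*(c:O)^2*(d:O)^2 + (-1)*z^6*(c:O)^3*(d:O) + (1)*z^6*(c:O)^4 + (-1)*z^6*(b:O)*(d:O)^3 + (1)*z^6*(b:O)*(c:O)*(d:O)^2 + (-2)*z^6*(b:O)*(c:O)^2*(d:O) + (-1)*z^6*(b:O)*(c:O)^3 + (1)*z^6*(b:O)^2*(d:O)^2 + (3)*z^6*(b:O)^2*(c:O)*(d:O) + (1)*z^6*(b:O)^2*(c:O)^2 + (-1)*z^6*(b:O)^3*(d:O) + (-1)*z^6*(b:O)^3*(c:O) + (1)*z^6*(b:O)^4 + (1)*z^6*(a:O)*(c:O)*(d:O)^2 + (1)*z^6*(a:O)*(c:O)^2*(d:O) + (-1)*z^6*(a:O)*(b:O)*(d:O)^2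 + (1)*z^6*(a:O)*(b:O)*(c:O)*(d:O) + (2)*z^6*(a:O)*(b:O)*(c:O)^2 + (2)*z^6*(a:O)*(b:O)^2*(d:O) + (-1)*z^6*(a:O)*(b:O)^2*(c:O) + (1)*z^7*(c:O)*(d:O)^3 + (-1)*z^7*(c:O)^2*(d:O)^2 + (1)*z^7*(c:O)^3*(d:O) + (1)*z^7*(b:O)^2*(d:O)^2 + (1)*z^7*(b:O)^2*(c:O)^2 + (1)*z^7*(a:O)*(c:O)*(d:O)^2 + (1)*z^7*(a:O)*(c:O)^2*(d:O) + (1)*z^7*(a:O)*(b:O)*(d:O)^2 + (1)*z^7*(a:O)*(b:O)^2*(c:O) + (-1)*z^8*(c:O)*(d:O)^3 + (1)*z^8*(c:O)^2*(d:O)^2 + (-1)*z^8*(c:O)^3*(d:O) + (1)*z^8*(b:O)*(d:O)^3 + (2)*z^8*(b:O)*(c:O)*(d:O)^2 + (1)*z^8*(b:O)*(c:O)^2*(d:O) + (1)*z^8*(b:O)*(c:O)^3 + (-1)*z^8*(b:O)^2*(d:O)^2 + (-1)*z^8*(b:O)^2*(c:O)^2 + (1)*z^8*(b:O)^3*(d:O) + (1)*z^8*(b:O)^3*(c:O) + (1)*z^8*(a:O)*(b:O)*(c:O)*(d:O) + (1)*z^9*(c:O)*(d:O)^3 + (-1)*z^9*(c:O)^2*(d:O)^2 + (1)*z^9*(c:O)^3*(d:O) + (1)*z^9*(b:O)^2*(d:O)^2 + (1)*z^9*(b:O)^2*(c:O)^2 +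 (1)*z^10*(c:O)^2*(d:O)^2 + (-1)*z^10*(b:O)*(c:O)*(d:O)^2 + (1)*z^10*(b:O)*(c:O)^2*(d:O) + (1)*z^10*(b:O)^2*(c:O)*(d:O) + (1)*z^11*(b:O)*(c:O)*(d:O)^2) * hz
  refine ⟨hprod, h.prime_of_norm hq hprod, by omega, hq, ?_⟩
  intro t ht
  rw [s1, s2] at ht
  refine h.rho_conj' (fun h5 => ?_) hcd t ht
  have e : q = (a + b + c + d) ^ 4 - 5 * (2 * (a + b + c + d) ^ 2 * (a * c + b * d + d * a) -
      5 * (a * c + b * d + d * a) ^ 2 +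
      (a ^ 2 + b ^ 2 + c ^ 2 + d ^ 2 - (a * c + b * d + d * a)) *
        (a * b + b * c + c * d - (a * c + b * d + d * a)) +
      (a * b + b * c + c * d - (a * c + b * d + d * a)) ^ 2) := by
    rw [hN]; ring
  have h6 : 5 ∣ q := by
    rw [e]
    exact dvd_sub (h5.trans (dvd_pow_self _ (by norm_num))) (dvd_mul_right _ _)
  omega

end Cyc5

end Pool.Agent.KS6_83.E5
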