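import Pool.Agent.KS6_83.E5.CycRing
import Pool.Agent.KS6_83.E5.Golden
import Pool.Agent.KS6_83.E5.RhoGen

/-!
# The descent for `x ^ 5 + y ^ 5 = D * q ^ c * w ^ 5`

(Adapted from the library module
`Pool.Graph.R_pool_sql_team_seeded_47a924f7.T6.H9.Q5.Descent`, where the equation is
`x ^ 5 + y ^ 5 = 88 * w ^ 5`.)
-/

set_option autoImplicit false

namespace Pool.Agent.KS6_83.E5

/-- the primes `q` that we treat: `q` is `1` modulo `5` and is the norm of some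
`a + b ζ + c ζ² + d ζ³` with `5 ∤ Cnd a b c d` -/
def Adm (q : ℤ) : Prop := q % 5 = 1 ∧ ∃ a b c d : ℤ,
  q = (a ^ 2 + b ^ 2 + c ^ 2 + d ^ 2 - (a * c + b * d + d * a)) ^ 2 -
      (a ^ 2 + b ^ 2 + c ^ 2 + d ^ 2 - (a * c + b * d + d * a)) *
        (a * b + b * c + c * d - (a * c + b * d + d * a)) -
      (a * b + b * c + c * d - (a * c + b * d + d * a)) ^ 2 ∧
  ¬ 5 ∣ Cnd a b c d

lemma noa {q : ℤ} (hp : Prime q) (hq : Adm q) {a b r : ℤ} {g : ℕ} (hb : 5 ∣ b)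
    (hcop : IsCoprime (a ^ 4 + 10 * a ^ 2 * b ^ 2 + 5 * b ^ 4) (10 * b))
    (hRr : a ^ 4 + 10 * a ^ 2 * b ^ 2 + 5 * b ^ 4 = q ^ g * r ^ 5) (hg : ¬ 5 ∣ g) : False := by
  obtain ⟨O, _, _, _, z, s, h⟩ := exists_cyc5
  obtain ⟨h5, a', b', c', d', h1, h2⟩ := hq
  exact h.app1 (h.rho' hp h5 h1 h2) hb hcop hRr hg

lemma nob {q : ℤ} (hp : Prime q) (hq : Adm q) {a b r : ℤ} {g : ℕ} (hb : 5 ∣ b)
    (hcop : IsCoprime (a ^ 4 + 50 * a ^ 2 * b ^ 2 + 125 * b ^ 4) (10 * b))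
    (hRr : a ^ 4 + 50 * a ^ 2 * b ^ 2 + 125 * b ^ 4 = q ^ g * r ^ 5) (hg : ¬ 5 ∣ g) : False := by
  obtain ⟨O, _, _, _, z, s, h⟩ := exists_cyc5
  obtain ⟨h5, a', b', c', d', h1, h2⟩ := hq
  exact h.app2 (h.rho' hp h5 h1 h2) hb hcop hRr hg

lemma cop2 {a : ℤ} (h : Odd a) : IsCoprime a 2 := by
  obtain ⟨k, hk⟩ := h
  exact ⟨1, -k, by rw [hk]; ring⟩

lemma prime5 : Prime (5 : ℤ) := by norm_num

lemma cop5 {a : ℤ} (h : ¬ 5 ∣ a) : IsCoprime a 5 :=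
  (prime5.coprime_iff_not_dvd.2 h).symm

lemma Adm.mod {q : ℤ} (hq : Adm q) : q % 5 = 1 := hq.1

/-- no prime factor is `1` modulo `5` -/
def Good (D : ℤ) : Prop := ∀ p : ℕ, p.Prime → (p : ℤ) ∣ D → p % 5 ≠ 1

lemma Good.mul {A B : ℤ} (hA : Good A) (hB : Good B) : Good (A * B) := by
  intro p hp h
  rcases (Nat.prime_iff_prime_int.1 hp).dvd_or_dvd h with h | h
  · exact hA p hp h
  · exact hB p hp h

lemma Good.of_dvd {A B : ℤ} (hA : Good A) (h : B ∣ A) : Good B :=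
  fun p hp h1 => hA p hp (h1.trans h)

lemma good_two : Good 2 := by
  intro p hp h
  have h1 : p ∣ 2 := by exact_mod_cast h
  have := (Nat.prime_dvd_prime_iff_eq hp Nat.prime_two).1 h1
  omega

lemma good_five : Good 5 := by
  intro p hp h
  have h1 : p ∣ 5 := by exact_mod_cast h
  have := (Nat.prime_dvd_prime_iff_eq hp Nat.prime_five).1 h1
  omega

/-- prime factors of `(x ^ 5 + y ^ 5) / (x + y)` -/
lemma prime_mod {p : ℕ} (hp : p.Prime) {x y : ℤ} (h : (p : ℤ) ∣ x ^ 5 + y ^ 5)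
    (hxy : ¬ (p : ℤ) ∣ x + y) : p % 5 = 1 := by
  have := Fact.mk hp
  have h1 : (x : ZMod p) ^ 5 + (y : ZMod p) ^ 5 = 0 := by
    have := (ZMod.intCast_zmod_eq_zero_iff_dvd (x ^ 5 + y ^ 5) p).2 h
    push_cast at this
    exact this
  have h2 : (x : ZMod p) + (y : ZMod p) ≠ 0 := by
    intro h0
    apply hxy
    rw [← ZMod.intCast_zmod_eq_zero_iff_dvd]
    push_cast
    exact h0
  have hy : (y : ZMod p) ≠ 0 := by
    intro h0
    rw [h0, zero_pow (by norm_num), add_zero, pow_eq_zero_iff (by norm_num)] at h1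
    exact h2 (by rw [h1, h0, add_zero])
  set w : ZMod p := -(x / y) with hw
  have hw5 : w ^ 5 = 1 := by
    rw [hw]
    field_simp
    linear_combination (-1 : ZMod p) * h1
  have hw1 : w ≠ 1 := by
    intro h0
    apply h2
    rw [hw, neg_eq_iff_eq_neg, div_eq_iff hy] at h0
    rw [h0]; ring
  have hw0 : w ≠ 0 := by
    intro h0
    rw [h0] at hw5
    simp at hw5
  have : Fact (Nat.Prime 5) := ⟨Nat.prime_five⟩
  have ho : orderOf w = 5 := orderOf_eq_prime hw5 hw1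
  have hd : orderOf w ∣ p - 1 := ZMod.orderOf_dvd_card_sub_one hw0
  rw [ho] at hd
  have := hp.two_le
  omega

lemma cop_good {R D : ℤ} (hR0 : R ≠ 0) (hR : ∀ p : ℕ, p.Prime → (p : ℤ) ∣ R → p % 5 = 1)
    (hD : Good D) : IsCoprime R D := by
  apply isCoprime_of_prime_dvd (fun h => hR0 h.1)
  intro w hw h1 h2
  have hp := Int.prime_iff_natAbs_prime.1 hw
  exact hD _ hp (Int.natAbs_dvd.2 h2) (hR _ hp (Int.natAbs_dvd.2 h1))

lemma split {q : ℤ} (hq : Prime q) {n R D k : ℤ} {e : ℕ} (hRn : IsCoprime R n)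
    (hRD : IsCoprime R D) (hne : n ≠ 0) (hR0 : R ≠ 0) (hD0 : D ≠ 0) (he : e = 0 ∨ ¬ 5 ∣ e)
    (heq : n * R = D * q ^ e * k ^ 5)
    (no : ∀ (g : ℕ) (r : ℤ), ¬ 5 ∣ g → R = q ^ g * r ^ 5 → False) :
    ∃ l r : ℤ, n = D * q ^ e * l ^ 5 ∧ R = r ^ 5 := by
  have hcn : D ∣ n := by
    apply hRD.symm.dvd_of_dvd_mul_right
    rw [heq]
    exact ⟨q ^ e * k ^ 5, by ring⟩
  have hRc' : IsCoprime R (D * q ^ e) := by
    rcases he with rfl | he
    · simpa using hRD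
    have h11 : ¬ q ∣ R := by
      intro h11
      have h11n : ¬ q ∣ n := fun h1 => hq.not_isUnit (hRn.isUnit_of_dvd' h11 h1)
      have hk0 : k ≠ 0 := by
        rintro rfl
        rw [zero_pow (by norm_num), mul_zero] at heq
        exact (mul_ne_zero hne hR0) heq
      obtain ⟨j, k₁, hk₁, hk⟩ : ∃ (j : ℕ) (k₁ : ℤ), ¬ q ∣ k₁ ∧ k = q ^ j * k₁ := by
        obtain ⟨c, hc1, hc2⟩ := (FiniteMultiplicity.of_prime_left hq hk0).exists_eq_pow_mul_and_not_dvd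
        exact ⟨_, c, hc2, hc1⟩
      have hn11 : IsCoprime n (q ^ (e + 5 * j)) := ((hq.coprime_iff_not_dvd.2 h11n).symm).pow_right
      obtain ⟨R₁, hR₁⟩ : q ^ (e + 5 * j) ∣ R := by
        apply hn11.symm.dvd_of_dvd_mul_left
        rw [heq, hk]
        exact ⟨D * k₁ ^ 5, by ring⟩
      obtain ⟨n₁, hn₁⟩ := hcn
      have h1 : n₁ * R₁ = k₁ ^ 5 := by
        have hc : D * q ^ (e + 5 * j) ≠ 0 := mul_ne_zero hD0 (pow_ne_zero _ hq.ne_zero)
        apply mul_left_cancel₀ hc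
        have e1 := heq
        rw [hk, hR₁] at e1
        nth_rewrite 1 [hn₁] at e1
        linear_combination e1
      have hc1 : IsCoprime n₁ R₁ :=
        (hRn.symm.of_isCoprime_of_dvd_left ⟨_, by rw [hn₁, mul_comm]⟩).of_isCoprime_of_dvd_right
          ⟨_, by rw [hR₁, mul_comm]⟩
      obtain ⟨-, r, hr⟩ := Int.eq_pow_of_mul_eq_pow_odd hc1 (by decide) h1
      refine no (e + 5 * j) r (by omega) ?_
      rw [← hr, ← hR₁]
    exact hRD.mul_right ((hq.coprime_iff_not_dvd.2 h11).symm).pow_right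
  obtain ⟨n₁, hn₁⟩ : D * q ^ e ∣ n := by
    apply hRc'.symm.dvd_of_dvd_mul_right
    rw [heq]
    exact ⟨k ^ 5, by ring⟩
  have h1 : n₁ * R = k ^ 5 := by
    have hc : D * q ^ e ≠ 0 := mul_ne_zero hD0 (pow_ne_zero _ hq.ne_zero)
    apply mul_left_cancel₀ hc
    rw [← heq]
    conv_rhs => rw [hn₁]
    ring
  have hc1 : IsCoprime n₁ R := hRn.symm.of_isCoprime_of_dvd_left ⟨_, by rw [hn₁, mul_comm]⟩
  obtain ⟨⟨l, hl⟩, r, hr⟩ := Int.eq_pow_of_mul_eq_pow_odd hc1 (by decide) h1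
  exact ⟨l, r, by rw [hn₁, hl], hr⟩

/-- the situation at a stage of the descent -/
structure St (q m n : ℤ) : Prop where
  cop : IsCoprime m n
  odd : Odd m
  even : Even n
  five : ¬ 5 ∣ m
  ne : n ≠ 0
  eq : ∃ (D : ℤ) (e : ℕ) (k : ℤ), Good D ∧ D ≠ 0 ∧ 5 ∣ D ∧ (e = 0 ∨ ¬ 5 ∣ e) ∧
    n * (m ^ 4 + 10 * m ^ 2 * n ^ 2 + 5 * n ^ 4) = D * q ^ e * k ^ 5

/-- from `U + V √5` to the next stage -/
lemma next {U V r : ℤ} (h : U ^ 2 - 5 * V ^ 2 = r ^ 5) (hU : Odd U) (hV : Even V)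
    (hV5 : 5 ∣ V) (hU5 : ¬ 5 ∣ U) (hc : IsCoprime U V) (hV0 : V ≠ 0) :
    ∃ m n : ℤ, IsCoprime m n ∧ Odd m ∧ Even n ∧ ¬ 5 ∣ m ∧ n ≠ 0 ∧
      V = 5 * (n * (m ^ 4 + 10 * m ^ 2 * n ^ 2 + 5 * n ^ 4)) := by
  obtain ⟨m, n, hm, hn⟩ := golden_fifth h hU hV hV5 hU5 hc
  have hmU : m ∣ U := ⟨_, hm⟩
  have hnV : n ∣ V := ⟨5 * (m ^ 4 + 10 * m ^ 2 * n ^ 2 + 5 * n ^ 4), by rw [hn]; ring⟩
  have hmo : Odd m := by
    rw [hm] at hU
    exact (Int.odd_mul.1 hU).1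
  refine ⟨m, n, (hc.of_isCoprime_of_dvd_left hmU).of_isCoprime_of_dvd_right hnV, hmo, ?_,
    fun h5 => hU5 (h5.trans hmU), ?_, hn⟩
  · by_contra hne
    rw [Int.not_even_iff_odd] at hne
    rw [hm] at hU
    have h1 := (Int.odd_mul.1 hU).2
    have h2 : Even (m ^ 4 + 50 * m ^ 2 * n ^ 2 + 125 * n ^ 4) := by
      have e : m ^ 4 + 50 * m ^ 2 * n ^ 2 + 125 * n ^ 4 =
        (m ^ 4 + n ^ 4) + 2 * (25 * m ^ 2 * n ^ 2 + 62 * n ^ 4) := by ring
      rw [e]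
      exact ((hmo.pow).add_odd hne.pow).add (even_two_mul _)
    exact (Int.not_even_iff_odd.2 h1) h2
  · rintro rfl
    apply hV0
    rw [hn]; ring

lemma step {q : ℤ} (hp : Prime q) (hq : Adm q) {m n : ℤ} (h : St q m n) :
    ∃ m' n' : ℤ, St q m' n' ∧ n'.natAbs < n.natAbs := by
  obtain ⟨hcop, hodd, heven, h5, hne, D, e, k, hDg, hD0, hD5, he, heq⟩ := h
  set R := m ^ 4 + 10 * m ^ 2 * n ^ 2 + 5 * n ^ 4 with hR
  have hRn : IsCoprime R n := by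
    have : R = m ^ 4 + n * (10 * m ^ 2 * n + 5 * n ^ 3) := by rw [hR]; ring
    rw [this]
    exact (IsCoprime.add_mul_left_left_iff).2 hcop.pow_left
  have hR2 : IsCoprime R 2 := by
    apply cop2
    rw [hR]
    have h1 : Even (10 * m ^ 2 * n ^ 2) := ⟨5 * m ^ 2 * n ^ 2, by ring⟩
    have h2 : Even (5 * n ^ 4) := (heven.pow_of_ne_zero (by norm_num)).mul_left _
    exact (hodd.pow.add_even h1).add_even h2
  have hR5 : IsCoprime R 5 := by
    apply cop5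
    intro h1
    apply h5
    apply prime5.dvd_of_dvd_pow (n := 4)
    have e1 : m ^ 4 = R - 5 * (2 * m ^ 2 * n ^ 2 + n ^ 4) := by rw [hR]; ring
    rw [e1]
    exact dvd_sub h1 (dvd_mul_right _ _)
  have hR10 : IsCoprime R (10 * n) := by
    have e1 : (10 : ℤ) * n = 2 * 5 * n := by ring
    rw [e1]
    exact (hR2.mul_right hR5).mul_right hRn
  have hR0 : R ≠ 0 := by
    intro h0
    rw [h0] at hR2
    have := (isCoprime_zero_left.1 hR2)
    rw [Int.isUnit_iff] at this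
    omega
  have hRp : ∀ p : ℕ, p.Prime → (p : ℤ) ∣ R → p % 5 = 1 := by
    intro p hpp hpR
    have hpp' := Nat.prime_iff_prime_int.1 hpp
    apply prime_mod hpp (x := m + n) (y := m - n)
    · have e1 : (m + n) ^ 5 + (m - n) ^ 5 = R * (2 * m) := by rw [hR]; ring
      rw [e1]
      exact hpR.mul_right _
    · intro h1
      have e1 : m + n + (m - n) = 2 * m := by ring
      rw [e1] at h1
      rcases hpp'.dvd_or_dvd h1 with h1 | h1
      · exact hpp'.not_isUnit (hR2.isUnit_of_dvd' hpR h1)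
      · have h2 : (p : ℤ) ∣ 5 * n ^ 4 := by
          have e2 : 5 * n ^ 4 = R - m * (m ^ 3 + 10 * m * n ^ 2) := by rw [hR]; ring
          rw [e2]
          exact dvd_sub hpR (h1.mul_right _)
        rcases hpp'.dvd_or_dvd h2 with h2 | h2
        · exact hpp'.not_isUnit (hR5.isUnit_of_dvd' hpR h2)
        · exact hpp'.not_isUnit (hRn.isUnit_of_dvd' hpR (hpp'.dvd_of_dvd_pow h2))
  have hRD : IsCoprime R D := cop_good hR0 hRp hDg
  have hDn : D ∣ n := by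
    apply hRD.symm.dvd_of_dvd_mul_right
    rw [heq]
    exact ⟨q ^ e * k ^ 5, by ring⟩
  have h5n : 5 ∣ n := hD5.trans hDn
  obtain ⟨l, r, hl, hr⟩ := split hp hRn hRD hne hR0 hD0 he heq
    fun g r hg hgr => noa hp hq h5n hR10 hgr hg
  have hn2 : Even (n ^ 2) := heven.pow_of_ne_zero (by norm_num)
  have hUo : Odd (m ^ 2 + 5 * n ^ 2) := hodd.pow.add_even (hn2.mul_left _)
  have hU5 : ¬ 5 ∣ m ^ 2 + 5 * n ^ 2 := by
    intro h1
    apply h5
    apply prime5.dvd_of_dvd_pow (n := 2)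
    exact (Int.dvd_iff_dvd_of_dvd_add h1).2 (dvd_mul_right _ _)
  have hUV : IsCoprime (m ^ 2 + 5 * n ^ 2) (2 * n ^ 2) := by
    apply IsCoprime.mul_right (cop2 hUo)
    apply IsCoprime.pow_right
    have : m ^ 2 + 5 * n ^ 2 = m ^ 2 + n * (5 * n) := by ring
    rw [this]
    exact (IsCoprime.add_mul_left_left_iff).2 hcop.pow_left
  obtain ⟨m', n', c1, c2, c3, c4, c5, c6⟩ := next (U := m ^ 2 + 5 * n ^ 2) (V := 2 * n ^ 2) (r := r)
    (by rw [← hr, hR]; ring) hUo (even_two_mul _)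
    ((h5n.trans (dvd_pow_self n (by norm_num))).mul_left _) hU5 hUV
    (mul_ne_zero two_ne_zero (pow_ne_zero _ hne))
  obtain ⟨d, rfl⟩ := hD5
  have hd0 : d ≠ 0 := by
    rintro rfl
    exact hD0 (by ring)
  have hdg : Good d := hDg.of_dvd (dvd_mul_left _ _)
  refine ⟨m', n', ⟨c1, c2, c3, c4, c5, 2 * 5 * (d * d), 2 * e, l ^ 2,
    (good_two.mul good_five).mul (hdg.mul hdg), by positivity, ⟨2 * (d * d), by ring⟩, by omega,
    ?_⟩, ?_⟩
  · have h5' : (5 : ℤ) ≠ 0 := by norm_num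
    apply mul_left_cancel₀ h5'
    rw [← c6, hl]
    ring
  · -- size
    have hpos : 0 < n' * (m' ^ 4 + 10 * m' ^ 2 * n' ^ 2 + 5 * n' ^ 4) := by
      have : 0 < n ^ 2 := by positivity
      linarith
    have hn'pos : 0 < n' := by
      have h2 : 0 < m' ^ 4 + 10 * m' ^ 2 * n' ^ 2 + 5 * n' ^ 4 := by positivity
      exact (pos_iff_pos_of_mul_pos hpos).2 h2
    by_contra hcon
    rw [not_lt] at hcon
    have h3 : n ^ 2 ≤ n' ^ 2 := by
      rw [← Int.natAbs_sq n, ← Int.natAbs_sq n']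
      have : (n.natAbs : ℤ) ≤ n'.natAbs := by exact_mod_cast hcon
      nlinarith [Int.natCast_nonneg n.natAbs]
    have h4 : n' * (5 * n' ^ 4) ≤ n' * (m' ^ 4 + 10 * m' ^ 2 * n' ^ 2 + 5 * n' ^ 4) := by
      apply mul_le_mul_of_nonneg_left _ hn'pos.le
      have : 0 ≤ m' ^ 4 + 10 * m' ^ 2 * n' ^ 2 := by positivity
      linarith
    have h6 : 25 * n' ^ 5 ≤ 2 * n' ^ 2 := by nlinarith
    have h7 : 1 ≤ n' ^ 3 := one_le_pow₀ hn'pos
    nlinarith [pow_pos hn'pos 2]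

lemma no_St {q : ℤ} (hp : Prime q) (hq : Adm q) :
    ∀ (N : ℕ) (m n : ℤ), n.natAbs = N → ¬ St q m n := by
  intro N
  induction N using Nat.strong_induction_on with
  | _ N ih =>
    intro m n hN h
    obtain ⟨m', n', h', hlt⟩ := step hp hq h
    exact ih _ (by omega) m' n' rfl h'

end Pool.Agent.KS6_83.E5
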