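import Pool.Agent.KS6_83.E5.Golden

/-!
# Fifth powers in `ℤ[(1 + √5) / 2]`: the odd case
-/

set_option autoImplicit false

namespace Pool.Agent.KS6_83.E5

open QuadraticAlgebra

theorem golden_fifth' {U V r : ℤ} (h : U ^ 2 - 5 * V ^ 2 = 4 * r ^ 5) (hU : Odd U) (hV : Odd V)
    (hV5 : 5 ∣ V) (hU5 : ¬ 5 ∣ U) (hc : IsCoprime U V) :
    ∃ m n : ℤ, Odd m ∧ Odd n ∧ 16 * U = m * (m ^ 4 + 50 * m ^ 2 * n ^ 2 + 125 * n ^ 4) ∧
      16 * V = 5 * (n * (m ^ 4 + 10 * m ^ 2 * n ^ 2 + 5 * n ^ 4)) := by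
  obtain ⟨W, hW⟩ : ∃ W, U = 2 * W + V := by
    obtain ⟨i, hi⟩ := hU
    obtain ⟨j, hj⟩ := hV
    exact ⟨i - j, by omega⟩
  set α : G := ⟨W, V⟩ with hα
  have hprod : α * star α = (r : G) ^ 5 := by
    rw [mul_star_self]
    have : nm α = r ^ 5 := by
      have h4 : (4 : ℤ) * nm α = 4 * r ^ 5 := by
        rw [← h, hα, hW]; simp only [nm]; ring
      exact mul_left_cancel₀ (by norm_num) h4
    rw [this]; push_cast; rfl
  have h5 : Prime (5 : ℤ) := by norm_num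
  have hc5 : IsCoprime U (5 * V) :=
    IsCoprime.mul_right (((h5.coprime_iff_not_dvd).2 hU5).symm) hc
  have hcop : IsCoprime α (star α) := by
    obtain ⟨s, t, hst⟩ := hc5
    refine ⟨(s : G) + t * ⟨-1, 2⟩, (s : G) - t * ⟨-1, 2⟩, ?_⟩
    have e1 : α + star α = ((U : ℤ) : G) := by
      ext
      · simp only [re_add, re_star, re_intCast, hα, Int.cast_id]; rw [hW]; ring
      · simp only [im_add, im_star, im_intCast, hα]; ring
    have e2 : (α - star α) * ⟨-1, 2⟩ = ((5 * V : ℤ) : G) := by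
      ext
      · simp only [re_sub, im_sub, re_mul, re_star, im_star, re_intCast, hα, Int.cast_id]; ring
      · simp only [re_sub, im_sub, im_mul, re_star, im_star, im_intCast, hα]; ring
    have e4 : ((s * U + t * (5 * V) : ℤ) : G) = 1 := by rw [hst]; simp
    push_cast at e1 e2 e4
    linear_combination (s : G) * e1 + (t : G) * e2 + e4
  obtain ⟨d, hd⟩ := exists_associated_pow_of_mul_eq_pow' hcop hprod
  obtain ⟨u, hu⟩ := hd
  have hun : nm (u : G) = 1 ∨ nm (u : G) = -1 := by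
    have h1 : nm (u : G) * nm ((u⁻¹ : Gˣ) : G) = 1 := by
      rw [← nm_mul, Units.mul_inv]; simp [nm]
    exact Int.isUnit_iff.1 (IsUnit.of_mul_eq_one _ h1)
  obtain ⟨i, hi, η, hη⟩ := unit_five hun
  obtain ⟨p, q, hpq⟩ : ∃ p q : ℤ, η * d = ⟨p, q⟩ := ⟨_, _, rfl⟩
  have hmain : α = om ^ i * (⟨p, q⟩ : G) ^ 5 := by
    rw [← hpq, ← hu, hη]; ring
  rw [pow_five] at hmain
  obtain ⟨V5, hV5⟩ := hV5
  set A := p ^ 5 + 10 * p ^ 3 * q ^ 2 + 10 * p ^ 2 * q ^ 3 + 10 * p * q ^ 4 + 3 * q ^ 5 with hA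
  set B := p ^ 4 * q + 2 * p ^ 3 * q ^ 2 + 4 * p ^ 2 * q ^ 3 + 3 * p * q ^ 4 + q ^ 5 with hB
  have hre := congrArg re hmain
  have him := congrArg im hmain
  rw [hα] at hre him
  have hi0 : i = 0 := by
    by_contra hne
    apply hU5
    interval_cases i
    · exact absurd rfl hne
    · simp [pow_succ, om] at hre him
      omega
    · simp [pow_succ, om] at hre him
      omega
    · simp [pow_succ, om] at hre him
      omega
    · simp [pow_succ, om] at hre him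
      omega
  subst hi0
  simp only [pow_zero, one_mul] at hre him
  have hVB : V = 5 * (q * (p ^ 4 + 2 * p ^ 3 * q + 4 * p ^ 2 * q ^ 2 + 3 * p * q ^ 3 + q ^ 4)) := by
    rw [him, hB]; ring
  have hqo : Odd q := by
    rw [hVB] at hV
    exact (Int.odd_mul.1 (Int.odd_mul.1 hV).2).1
  refine ⟨2 * p + q, q, (even_two_mul p).add_odd hqo, hqo, ?_, ?_⟩
  · rw [hW, hVB, hre, hA]; ring
  · rw [hVB]; ring

end Pool.Agent.KS6_83.E5
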