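import Pool.Agent.KS6_83.E5.First
import Pool.Agent.KS6_83.E5.CycHalf
import Pool.Agent.KS6_83.E5.GoldenHalf

/-!
# The descent for `x ^ 5 + y ^ 5 = D * q ^ c * w ^ 5` when `x + y` is odd
-/

set_option autoImplicit false

namespace Pool.Agent.KS6_83.E5

lemma noa' {q : ℤ} (hp : Prime q) (hq : Adm q) {m n R r : ℤ} {g : ℕ} (hm : Odd m) (hn : Odd n)
    (hb : 5 ∣ n) (hR : m ^ 4 + 10 * m ^ 2 * n ^ 2 + 5 * n ^ 4 = 16 * R)
    (hcop : IsCoprime R (10 * n)) (hRr : R = q ^ g * r ^ 5) (hg : ¬ 5 ∣ g) : False := by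
  obtain ⟨O, _, _, _, z, s, h⟩ := exists_cyc5
  obtain ⟨h5, a', b', c', d', h1, h2⟩ := hq
  obtain ⟨a, ha⟩ : ∃ a, m = 2 * a - n := by
    obtain ⟨i, hi⟩ := hm
    obtain ⟨j, hj⟩ := hn
    exact ⟨i + j + 1, by omega⟩
  have e : R = a ^ 4 - 2 * a ^ 3 * n + 4 * a ^ 2 * n ^ 2 - 3 * a * n ^ 3 + n ^ 4 := by
    apply mul_left_cancel₀ (show (16 : ℤ) ≠ 0 by norm_num)
    rw [← hR, ha]; ring
  rw [e] at hcop hRr
  exact h.app3 (h.rho' hp h5 h1 h2) hb hcop hRr hg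

lemma nob' {q : ℤ} (hp : Prime q) (hq : Adm q) {m n R r : ℤ} {g : ℕ} (hm : Odd m) (hn : Odd n)
    (hb : 5 ∣ n) (hR : m ^ 4 + 50 * m ^ 2 * n ^ 2 + 125 * n ^ 4 = 16 * R)
    (hcop : IsCoprime R (10 * n)) (hRr : R = q ^ g * r ^ 5) (hg : ¬ 5 ∣ g) : False := by
  obtain ⟨O, _, _, _, z, s, h⟩ := exists_cyc5
  obtain ⟨h5, a', b', c', d', h1, h2⟩ := hq
  obtain ⟨a, ha⟩ : ∃ a, m = 2 * a - 3 * n := by
    obtain ⟨i, hi⟩ := hm
    obtain ⟨j, hj⟩ := hn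
    exact ⟨i + 3 * j + 2, by omega⟩
  have e : R = a ^ 4 - 6 * a ^ 3 * n + 26 * a ^ 2 * n ^ 2 - 51 * a * n ^ 3 + 41 * n ^ 4 := by
    apply mul_left_cancel₀ (show (16 : ℤ) ≠ 0 by norm_num)
    rw [← hR, ha]; ring
  rw [e] at hcop hRr
  exact h.app4 (h.rho' hp h5 h1 h2) hb hcop hRr hg

lemma odd_sq {m : ℤ} (hm : Odd m) : ∃ i, m ^ 2 = 8 * i + 1 := by
  have := Int.sq_mod_four_eq_one_of_odd hm
  obtain ⟨k, rfl⟩ := hm
  rcases Int.even_or_odd k with ⟨j, rfl⟩ | ⟨j, rfl⟩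
  · exact ⟨j * (2 * j + 1), by ring⟩
  · exact ⟨(2 * j + 1) * (j + 1), by ring⟩

/-- `(m⁴ + 10 m² n² + 5 n⁴) / 16` is an odd integer for odd `m`, `n` -/
lemma exA {m n : ℤ} (hm : Odd m) (hn : Odd n) :
    ∃ R : ℤ, m ^ 4 + 10 * m ^ 2 * n ^ 2 + 5 * n ^ 4 = 16 * R ∧ Odd R := by
  obtain ⟨i, hi⟩ := odd_sq hm
  obtain ⟨j, hj⟩ := odd_sq hn
  refine ⟨2 * (2 * i ^ 2 + 3 * i + 20 * i * j + 5 * j + 10 * j ^ 2) + 1, ?_, ⟨_, rfl⟩⟩
  have e : m ^ 4 + 10 * m ^ 2 * n ^ 2 + 5 * n ^ 4 = (m ^ 2) ^ 2 + 10 * m ^ 2 * n ^ 2 +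
    5 * (n ^ 2) ^ 2 := by ring
  rw [e, hi, hj]; ring

/-- `(m⁴ + 50 m² n² + 125 n⁴) / 16` is an odd integer for odd `m`, `n` -/
lemma exB {m n : ℤ} (hm : Odd m) (hn : Odd n) :
    ∃ R : ℤ, m ^ 4 + 50 * m ^ 2 * n ^ 2 + 125 * n ^ 4 = 16 * R ∧ Odd R := by
  obtain ⟨i, hi⟩ := odd_sq hm
  obtain ⟨j, hj⟩ := odd_sq hn
  refine ⟨2 * (2 * i ^ 2 + 13 * i + 100 * i * j + 75 * j + 250 * j ^ 2 + 5) + 1, ?_, ⟨_, rfl⟩⟩
  have e : m ^ 4 + 50 * m ^ 2 * n ^ 2 + 125 * n ^ 4 = (m ^ 2) ^ 2 + 50 * m ^ 2 * n ^ 2 +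
    125 * (n ^ 2) ^ 2 := by ring
  rw [e, hi, hj]; ring

/-- the situation at a stage of the descent -/
structure StO (q m n : ℤ) : Prop where
  cop : IsCoprime m n
  oddm : Odd m
  oddn : Odd n
  five : ¬ 5 ∣ m
  eq : ∃ (R D : ℤ) (e : ℕ) (k : ℤ), m ^ 4 + 10 * m ^ 2 * n ^ 2 + 5 * n ^ 4 = 16 * R ∧ Odd R ∧
    Good D ∧ D ≠ 0 ∧ 5 ∣ D ∧ (e = 0 ∨ ¬ 5 ∣ e) ∧ n * R = D * q ^ e * k ^ 5

/-- from `(U + V √5) / 2` to the next stage -/
lemma nextO {U V r : ℤ} (h : U ^ 2 - 5 * V ^ 2 = 4 * r ^ 5) (hU : Odd U) (hV : Odd V)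
    (hV5 : 5 ∣ V) (hU5 : ¬ 5 ∣ U) (hc : IsCoprime U V) :
    ∃ m n R : ℤ, IsCoprime m n ∧ Odd m ∧ Odd n ∧ ¬ 5 ∣ m ∧
      m ^ 4 + 10 * m ^ 2 * n ^ 2 + 5 * n ^ 4 = 16 * R ∧ Odd R ∧ V = 5 * (n * R) := by
  obtain ⟨m, n, hmo, hno, hm, hn⟩ := golden_fifth' h hU hV hV5 hU5 hc
  obtain ⟨R, hR, hRo⟩ := exA hmo hno
  have c16 : ∀ {a : ℤ}, Odd a → IsCoprime a 16 := by
    intro a ha
    have e : (16 : ℤ) = 2 ^ 4 := by norm_num
    rw [e]
    exact (cop2 ha).pow_right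
  have hmU : m ∣ U := by
    apply (c16 hmo).dvd_of_dvd_mul_left
    exact ⟨_, hm⟩
  have hnV : n ∣ V := by
    apply (c16 hno).dvd_of_dvd_mul_left
    exact ⟨5 * (m ^ 4 + 10 * m ^ 2 * n ^ 2 + 5 * n ^ 4), by rw [hn]; ring⟩
  refine ⟨m, n, R, (hc.of_isCoprime_of_dvd_left hmU).of_isCoprime_of_dvd_right hnV, hmo, hno,
    fun h5 => hU5 (h5.trans hmU), hR, hRo, ?_⟩
  apply mul_left_cancel₀ (show (16 : ℤ) ≠ 0 by norm_num)
  rw [hn, hR]; ring

lemma stepO {q : ℤ} (hp : Prime q) (hq : Adm q) {m n : ℤ} (h : StO q m n) :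
    ∃ m' n' : ℤ, StO q m' n' ∧ n'.natAbs < n.natAbs := by
  obtain ⟨hcop, hodd, hnodd, h5, R, D, e, k, hR, hRo, hDg, hD0, hD5, he, heq⟩ := h
  have hne : n ≠ 0 := by
    rintro rfl
    simp at hnodd
  have c16 : ∀ {a b : ℤ}, IsCoprime (16 * a) b → IsCoprime a b := fun h =>
    h.of_isCoprime_of_dvd_left (dvd_mul_left _ _)
  have hRn : IsCoprime R n := by
    apply c16
    rw [← hR]
    have : m ^ 4 + 10 * m ^ 2 * n ^ 2 + 5 * n ^ 4 = m ^ 4 + n * (10 * m ^ 2 * n + 5 * n ^ 3) := by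
      ring
    rw [this]
    exact (IsCoprime.add_mul_left_left_iff).2 hcop.pow_left
  have hR2 : IsCoprime R 2 := cop2 hRo
  have hR5 : IsCoprime R 5 := by
    apply cop5
    intro h1
    apply h5
    apply prime5.dvd_of_dvd_pow (n := 4)
    have e1 : m ^ 4 = 16 * R - 5 * (2 * m ^ 2 * n ^ 2 + n ^ 4) := by rw [← hR]; ring
    rw [e1]
    exact dvd_sub (h1.mul_left _) (dvd_mul_right _ _)
  have hR10 : IsCoprime R (10 * n) := by
    have e1 : (10 : ℤ) * n = 2 * 5 * n := by ring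
    rw [e1]
    exact (hR2.mul_right hR5).mul_right hRn
  have hR0 : R ≠ 0 := by
    rintro rfl
    simp at hRo
  have hRp : ∀ p : ℕ, p.Prime → (p : ℤ) ∣ R → p % 5 = 1 := by
    intro p hpp hpR
    have hpp' := Nat.prime_iff_prime_int.1 hpp
    apply prime_mod hpp (x := m + n) (y := m - n)
    · have e1 : (m + n) ^ 5 + (m - n) ^ 5 =
        (m ^ 4 + 10 * m ^ 2 * n ^ 2 + 5 * n ^ 4) * (2 * m) := by ring
      rw [e1, hR]
      exact (hpR.mul_left _).mul_right _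
    · intro h1
      have e1 : m + n + (m - n) = 2 * m := by ring
      rw [e1] at h1
      rcases hpp'.dvd_or_dvd h1 with h1 | h1
      · exact hpp'.not_isUnit (hR2.isUnit_of_dvd' hpR h1)
      · have h2 : (p : ℤ) ∣ 5 * n ^ 4 := by
          have e2 : 5 * n ^ 4 = 16 * R - m * (m ^ 3 + 10 * m * n ^ 2) := by rw [← hR]; ring
          rw [e2]
          exact dvd_sub (hpR.mul_left _) (h1.mul_right _)
        rcases hpp'.dvd_or_dvd h2 with h2 | h2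
        · exact hpp'.not_isUnit (hR5.isUnit_of_dvd' hpR h2)
        · exact hpp'.not_isUnit (hRn.isUnit_of_dvd' hpR (hpp'.dvd_of_dvd_pow h2))
  have hRD : IsCoprime R D := cop_good hR0 hRp hDg
  have hDn : D ∣ n := by
    apply hRD.symm.dvd_of_dvd_mul_right
    rw [heq]
    exact ⟨q ^ e * k ^ 5, by ring⟩
  have h5n : 5 ∣ n := hD5.trans hDn
  obtain ⟨l, r, hl, hr⟩ := split hp hRn hRD hne hR0 hD0 he heq
    fun g r hg hgr => noa' hp hq hodd hnodd h5n hR hR10 hgr hg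
  obtain ⟨i, hi⟩ := odd_sq hodd
  obtain ⟨j, hj⟩ := odd_sq hnodd
  obtain ⟨U, hU⟩ : ∃ U, m ^ 2 + 5 * n ^ 2 = 2 * U := ⟨4 * i + 20 * j + 3, by rw [hi, hj]; ring⟩
  have hUo : Odd U := ⟨2 * i + 10 * j + 1, by
    apply mul_left_cancel₀ (show (2 : ℤ) ≠ 0 by norm_num)
    rw [← hU, hi, hj]; ring⟩
  have hU5 : ¬ 5 ∣ U := by
    intro h1
    apply h5
    apply prime5.dvd_of_dvd_pow (n := 2)
    have e1 : m ^ 2 = 2 * U - 5 * n ^ 2 := by rw [← hU]; ring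
    rw [e1]
    exact dvd_sub (h1.mul_left _) (dvd_mul_right _ _)
  have hUV : IsCoprime U (n ^ 2) := by
    apply IsCoprime.pow_right
    have e1 : IsCoprime (2 * U) n := by
      rw [← hU]
      have : m ^ 2 + 5 * n ^ 2 = m ^ 2 + n * (5 * n) := by ring
      rw [this]
      exact (IsCoprime.add_mul_left_left_iff).2 hcop.pow_left
    exact e1.of_isCoprime_of_dvd_left (dvd_mul_left _ _)
  obtain ⟨m', n', R', c1, c2, c3, c4, c5, c5', c6⟩ := nextO (U := U) (V := n ^ 2) (r := r)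
    (by
      apply mul_left_cancel₀ (show (4 : ℤ) ≠ 0 by norm_num)
      have e1 : 4 * (U ^ 2 - 5 * (n ^ 2) ^ 2) = (2 * U) ^ 2 - 20 * n ^ 4 := by ring
      rw [e1, ← hU, ← hr]
      linear_combination hR) hUo hnodd.pow
    (h5n.trans (dvd_pow_self n (by norm_num))) hU5 hUV
  obtain ⟨d, rfl⟩ := hD5
  have hd0 : d ≠ 0 := by
    rintro rfl
    exact hD0 (by ring)
  have hdg : Good d := hDg.of_dvd (dvd_mul_left _ _)
  refine ⟨m', n', ⟨c1, c2, c3, c4, R', 5 * (d * d), 2 * e, l ^ 2, c5, c5',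
    good_five.mul (hdg.mul hdg), by positivity, dvd_mul_right _ _, by omega, ?_⟩, ?_⟩
  · have h5' : (5 : ℤ) ≠ 0 := by norm_num
    apply mul_left_cancel₀ h5'
    rw [← c6, hl]
    ring
  · -- size
    have hn0 : n' ≠ 0 := by
      rintro rfl
      simp at c3
    have hR'pos : 0 < 16 * R' := by
      rw [← c5]
      positivity
    have hpos : 0 < n' * R' := by
      have : 0 < n ^ 2 := by positivity
      linarith
    have hn'pos : 0 < n' := by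
      have h2 : 0 < R' := by linarith
      exact (pos_iff_pos_of_mul_pos hpos).2 h2
    by_contra hcon
    rw [not_lt] at hcon
    have h3 : n ^ 2 ≤ n' ^ 2 := by
      rw [← Int.natAbs_sq n, ← Int.natAbs_sq n']
      have : (n.natAbs : ℤ) ≤ n'.natAbs := by exact_mod_cast hcon
      nlinarith [Int.natCast_nonneg n.natAbs]
    have h4 : n' * (5 * n' ^ 4) ≤ n' * (m' ^ 4 + 10 * m' ^ 2 * n' ^ 2 + 5 * n' ^ 4) := by
      apply mul_le_mul_of_nonneg_left _ hn'pos.le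
      have : 0 ≤ m' ^ 4 + 10 * m' ^ 2 * n' ^ 2 := by positivity
      linarith
    rw [c5] at h4
    have h6 : 25 * n' ^ 5 ≤ 16 * n' ^ 2 := by nlinarith
    have h7 : 1 ≤ n' ^ 3 := one_le_pow₀ hn'pos
    nlinarith [pow_pos hn'pos 2]

lemma no_StO {q : ℤ} (hp : Prime q) (hq : Adm q) :
    ∀ (N : ℕ) (m n : ℤ), n.natAbs = N → ¬ StO q m n := by
  intro N
  induction N using Nat.strong_induction_on with
  | _ N ih =>
    intro m n hN h
    obtain ⟨m', n', h', hlt⟩ := stepO hp hq h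
    exact ih _ (by omega) m' n' rfl h'

/-- `x⁵ + y⁵ = D q ^ c w⁵` has no solution in coprime integers with odd sum and `w ≠ 0` -/
theorem firstO {q : ℤ} (hp : Prime q) (hq : Adm q) {D x y w : ℤ} {c : ℕ} (hc : c = 0 ∨ ¬ 5 ∣ c)
    (hxy : IsCoprime x y) (hxyo : Odd (x + y)) (hw : w ≠ 0) (hD0 : D ≠ 0) (hDg : Good D)
    (h25 : 25 ∣ D → 125 ∣ D) (h5 : 5 ∣ D ∨ Res (D * q ^ c))
    (h : x ^ 5 + y ^ 5 = D * q ^ c * w ^ 5) : False := by
  have hq5 : ¬ 5 ∣ q := by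
    have := hq.mod
    omega
  obtain ⟨P, hP⟩ : ∃ P, P = x + y := ⟨_, rfl⟩
  obtain ⟨Q, hQ⟩ : ∃ Q, Q = x - y := ⟨_, rfl⟩
  have hPo : Odd P := by rw [hP]; exact hxyo
  have hQo : Odd Q := by
    have e : Q = x + y - 2 * y := by rw [hQ]; ring
    rw [e]
    exact hxyo.sub_even (even_two_mul _)
  have h5' : 5 ∣ D * q ^ c * w ^ 5 := by
    rcases h5 with h5 | h5
    · exact (h5.mul_right _).mul_right _
    · exact ((five_dvd h5 hxy h).trans (dvd_pow_self w (by norm_num))).mul_left _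
  have hPQ : 16 * (x ^ 5 + y ^ 5) = P * (P ^ 4 + 10 * P ^ 2 * Q ^ 2 + 5 * Q ^ 4) := by
    rw [hP, hQ]; ring
  have hb5 : 5 ∣ P := by
    apply prime5.dvd_of_dvd_pow (n := 5)
    have e : P ^ 5 = 16 * (D * q ^ c * w ^ 5) - 5 * (2 * P ^ 3 * Q ^ 2 + P * Q ^ 4) := by
      rw [← h, hPQ]; ring
    rw [e]
    exact dvd_sub (h5'.mul_left _) (dvd_mul_right _ _)
  obtain ⟨b, rfl⟩ := hb5
  have hbo : Odd b := (Int.odd_mul.1 hPo).2
  obtain ⟨T, hT, hTo⟩ := exB hQo hbo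
  have hxyT : x ^ 5 + y ^ 5 = 25 * (b * T) := by
    apply mul_left_cancel₀ (show (16 : ℤ) ≠ 0 by norm_num)
    rw [hPQ]
    linear_combination 25 * b * hT
  have hcQb : IsCoprime Q (5 * b) := by
    obtain ⟨s, t, hst⟩ := hxy
    have h1 : IsCoprime Q 2 := cop2 hQo
    -- `s x + t y = 1` gives `(s - t) Q + (s + t) P = 2`
    obtain ⟨a', b', hab'⟩ := h1
    refine ⟨a' + b' * (s - t), b' * (s + t), ?_⟩
    have e : (s - t) * Q + (s + t) * (5 * b) = 2 := by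
      rw [hP, hQ]; linear_combination 2 * hst
    linear_combination hab' + b' * e
  have hcQb' : IsCoprime Q b := hcQb.of_isCoprime_of_dvd_right (dvd_mul_left _ _)
  have hQ5 : ¬ 5 ∣ Q := fun h5 => prime5.not_isUnit (hcQb.isUnit_of_dvd' h5 (dvd_mul_right _ _))
  have c16 : ∀ {a b : ℤ}, IsCoprime (16 * a) b → IsCoprime a b := fun h =>
    h.of_isCoprime_of_dvd_left (dvd_mul_left _ _)
  have hT2 : IsCoprime T 2 := cop2 hTo
  have hT5 : IsCoprime T 5 := by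
    apply cop5
    intro h3
    apply hQ5
    apply prime5.dvd_of_dvd_pow (n := 4)
    have e1 : Q ^ 4 = 16 * T - 5 * (10 * Q ^ 2 * b ^ 2 + 25 * b ^ 4) := by rw [← hT]; ring
    rw [e1]
    exact dvd_sub (h3.mul_left _) (dvd_mul_right _ _)
  have hTb : IsCoprime T b := by
    apply c16
    rw [← hT]
    have : Q ^ 4 + 50 * Q ^ 2 * b ^ 2 + 125 * b ^ 4 = Q ^ 4 + b * (50 * Q ^ 2 * b + 125 * b ^ 3) := by
      ring
    rw [this]
    exact (IsCoprime.add_mul_left_left_iff).2 hcQb'.pow_left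
  have hT10 : IsCoprime T (10 * b) := by
    have e1 : (10 : ℤ) * b = 2 * 5 * b := by ring
    rw [e1]
    exact (hT2.mul_right hT5).mul_right hTb
  have hT0 : T ≠ 0 := by
    intro h0
    rw [h0] at hTo
    simp at hTo
  have hTp : ∀ p : ℕ, p.Prime → (p : ℤ) ∣ T → p % 5 = 1 := by
    intro p hpp hpT
    apply prime_mod hpp (x := x) (y := y)
    · rw [hxyT]
      exact (hpT.mul_left _).mul_left _
    · intro h1
      rw [← hP] at h1
      exact (Nat.prime_iff_prime_int.1 hpp).not_isUnit (hT10.isUnit_of_dvd' hpT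
        (h1.trans ⟨2, by ring⟩))
  -- the new coefficient
  obtain ⟨D1, k, hD1g, hD15, hD10, hk0, hD1⟩ : ∃ D1 k : ℤ, Good D1 ∧ 5 ∣ D1 ∧ D1 ≠ 0 ∧ k ≠ 0 ∧
      D * w ^ 5 = 25 * (D1 * k ^ 5) := by
    by_cases hw5 : 5 ∣ w
    · obtain ⟨k, rfl⟩ := hw5
      refine ⟨5 * (5 * (5 * D)), k, good_five.mul (good_five.mul (good_five.mul hDg)),
        dvd_mul_right _ _, ?_, ?_, by ring⟩
      · intro h0
        apply hD0
        omega
      · rintro rfl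
        exact hw (by ring)
    · have h6 : 25 ∣ D := by
        have h7 : IsCoprime (25 : ℤ) (q ^ c * w ^ 5) := by
          have e : (25 : ℤ) = 5 ^ 2 := by norm_num
          rw [e]
          exact ((prime5.coprime_iff_not_dvd.2 hq5).pow_right.mul_right
            (prime5.coprime_iff_not_dvd.2 hw5).pow_right).pow_left
        apply h7.dvd_of_dvd_mul_right
        rw [← mul_assoc, ← h, hxyT]
        exact dvd_mul_right _ _
      obtain ⟨F, hF⟩ := h25 h6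
      have hFg : Good F := hDg.of_dvd ⟨125, by rw [hF]; ring⟩
      refine ⟨5 * F, w, good_five.mul hFg, dvd_mul_right _ _, ?_, hw, by rw [hF]; ring⟩
      intro h0
      apply hD0
      omega
  have heq : b * T = D1 * q ^ c * k ^ 5 := by
    apply mul_left_cancel₀ (show (25 : ℤ) ≠ 0 by norm_num)
    rw [← hxyT, h]
    linear_combination q ^ c * hD1
  have hb0 : b ≠ 0 := by
    rintro rfl
    simp at hbo
  have hTD : IsCoprime T D1 := cop_good hT0 hTp hD1g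
  have h5b : 5 ∣ b := hD15.trans (hTD.symm.dvd_of_dvd_mul_right (by
    rw [heq]; exact ⟨q ^ c * k ^ 5, by ring⟩))
  obtain ⟨l, r, hl, hr⟩ := split hp hTb hTD hb0 hT0 hD10 hc heq
    fun g r hg hgr => nob' hp hq hQo hbo h5b hT hT10 hgr hg
  obtain ⟨i, hi⟩ := odd_sq hQo
  obtain ⟨j, hj⟩ := odd_sq hbo
  obtain ⟨U, hU⟩ : ∃ U, Q ^ 2 + 25 * b ^ 2 = 2 * U := ⟨4 * i + 100 * j + 13, by rw [hi, hj]; ring⟩
  have hUo : Odd U := ⟨2 * i + 50 * j + 6, by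
    apply mul_left_cancel₀ (show (2 : ℤ) ≠ 0 by norm_num)
    rw [← hU, hi, hj]; ring⟩
  have hU5 : ¬ 5 ∣ U := by
    intro h1
    apply hQ5
    apply prime5.dvd_of_dvd_pow (n := 2)
    have e1 : Q ^ 2 = 2 * U - 5 * (5 * b ^ 2) := by rw [← hU]; ring
    rw [e1]
    exact dvd_sub (h1.mul_left _) (dvd_mul_right _ _)
  have hUV : IsCoprime U (5 * b ^ 2) := by
    apply IsCoprime.mul_right (cop5 hU5)
    apply IsCoprime.pow_right
    have e1 : IsCoprime (2 * U) b := by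
      rw [← hU]
      have : Q ^ 2 + 25 * b ^ 2 = Q ^ 2 + b * (25 * b) := by ring
      rw [this]
      exact (IsCoprime.add_mul_left_left_iff).2 hcQb'.pow_left
    exact e1.of_isCoprime_of_dvd_left (dvd_mul_left _ _)
  obtain ⟨m', n', R', c1, c2, c3, c4, c5, c5', c6⟩ := nextO (U := U) (V := 5 * b ^ 2) (r := r)
    (by
      apply mul_left_cancel₀ (show (4 : ℤ) ≠ 0 by norm_num)
      have e1 : 4 * (U ^ 2 - 5 * (5 * b ^ 2) ^ 2) = (2 * U) ^ 2 - 500 * b ^ 4 := by ring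
      rw [e1, ← hU, ← hr]
      linear_combination hT) hUo ((by decide : Odd (5 : ℤ)).mul hbo.pow) (dvd_mul_right _ _)
    hU5 hUV
  refine no_StO hp hq _ m' n' rfl ⟨c1, c2, c3, c4, R', D1 * D1, 2 * c, l ^ 2, c5, c5',
    hD1g.mul hD1g, by positivity, hD15.mul_right _, by omega, ?_⟩
  apply mul_left_cancel₀ (show (5 : ℤ) ≠ 0 by norm_num)
  rw [← c6, hl]
  ring

end Pool.Agent.KS6_83.E5
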