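import Pool.Agent.KS6_83.E5.DescentOdd

/-!
# `x ^ 5 + y ^ 5 = N * z ^ 5`
-/

set_option autoImplicit false

namespace Pool.Agent.KS6_83.E5

lemma Adm.odd {q : ℤ} (hp : Prime q) (hq : Adm q) : Odd q := by
  rw [← Int.not_even_iff_odd]
  intro he
  have h1 : q.natAbs.Prime := Int.prime_iff_natAbs_prime.1 hp
  have h2 : 2 ∣ q.natAbs := Int.natCast_dvd.1 (by exact_mod_cast he.two_dvd)
  have h3 := (Nat.prime_dvd_prime_iff_eq Nat.prime_two h1).1 h2
  have := hq.mod
  omega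

/-- no solutions with coprime `x`, `y` -/
theorem coprime_case {q : ℤ} (hp : Prime q) (hq : Adm q) {D x y w : ℤ} {c : ℕ}
    (hc : c = 0 ∨ ¬ 5 ∣ c) (hxy : IsCoprime x y) (hw : w ≠ 0) (hD0 : D ≠ 0) (hDg : Good D)
    (h25 : 25 ∣ D → 125 ∣ D) (h5 : 5 ∣ D ∨ Res (D * q ^ c))
    (h : x ^ 5 + y ^ 5 = D * q ^ c * w ^ 5) : False := by
  rcases Int.even_or_odd (x + y) with he | ho
  · have hnot : ¬ (Even x ∧ Even y) := by
      rintro ⟨hx, hy⟩
      have := hxy.isUnit_of_dvd' hx.two_dvd hy.two_dvd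
      rw [Int.isUnit_iff] at this
      omega
    have hx : Odd x := by
      rw [← Int.not_even_iff_odd]
      intro hx
      exact hnot ⟨hx, (Int.even_add.1 he).1 hx⟩
    have hy : Odd y := by
      rw [← Int.not_even_iff_odd]
      intro hy
      exact hnot ⟨(Int.even_add.1 he).2 hy, hy⟩
    by_cases h2 : 2 ∣ D
    · exact first hp hq hc hxy hx hy hw hD0 hDg h25 h5 h h2
    have hw2 : 2 ∣ w := by
      have h3 : (2 : ℤ) ∣ D * q ^ c * w ^ 5 := by
        rw [← h]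
        exact (hx.pow.add_odd hy.pow).two_dvd
      have p2 : Prime (2 : ℤ) := Int.prime_two
      rcases p2.dvd_or_dvd h3 with h3 | h3
      · rcases p2.dvd_or_dvd h3 with h3 | h3
        · exact absurd h3 h2
        · exfalso
          have h4 := p2.dvd_of_dvd_pow h3
          have h5 := Adm.odd hp hq
          rw [← Int.not_even_iff_odd] at h5
          exact h5 (even_iff_two_dvd.2 h4)
      · exact p2.dvd_of_dvd_pow h3
    obtain ⟨w', rfl⟩ := hw2
    refine first (D := 2 * (2 * (2 * (2 * (2 * D))))) (w := w') hp hq hc hxy hx hy ?_ ?_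
      (good_two.mul (good_two.mul (good_two.mul (good_two.mul (good_two.mul hDg))))) ?_ ?_ ?_
      (dvd_mul_right _ _)
    · rintro rfl
      exact hw (by ring)
    · omega
    · intro h25'
      have := h25 (by omega)
      omega
    · rcases h5 with h5 | h5
      · left; omega
      · right
        have e : 2 * (2 * (2 * (2 * (2 * D)))) * q ^ c = 32 * (D * q ^ c) := by ring
        rw [e]
        unfold Res at h5 ⊢
        omega
    · rw [h]; ring
  · exact firstO hp hq hc hxy ho hw hD0 hDg h25 h5 h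

lemma pow_free {N : ℤ} (hfree : ∀ p : ℕ, p.Prime → ¬ ((p : ℤ) ^ 5 ∣ N)) :
    ∀ (n : ℕ), n ≠ 0 → ∀ z : ℤ, (n : ℤ) ^ 5 ∣ N * z ^ 5 → (n : ℤ) ∣ z := by
  intro n
  induction n using Nat.strong_induction_on with
  | _ n ih =>
    intro hn z hz
    by_cases h1 : n = 1
    · rw [h1]; simp
    have hp := Nat.minFac_prime h1
    obtain ⟨m, hm⟩ := Nat.minFac_dvd n
    set p := n.minFac with hpd
    have hpi : Prime (p : ℤ) := Nat.prime_iff_prime_int.1 hp
    have hm0 : m ≠ 0 := by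
      rintro rfl
      exact hn (by rw [hm, mul_zero])
    have hmn : m < n := by
      have := hp.two_le
      have h3 : 0 < m := Nat.pos_of_ne_zero hm0
      calc m < 2 * m := by omega
        _ ≤ p * m := Nat.mul_le_mul_right _ this
        _ = n := hm.symm
    have hnpm : (n : ℤ) = p * m := by
      have : ((n : ℕ) : ℤ) = ((p * m : ℕ) : ℤ) := congrArg _ hm
      rw [this]; push_cast; ring
    rw [hnpm] at hz ⊢
    have hpz : (p : ℤ) ∣ z := by
      by_contra hcon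
      apply hfree p hp
      have h3 : IsCoprime ((p : ℤ) ^ 5) (z ^ 5) :=
        (hpi.coprime_iff_not_dvd.2 hcon).pow
      apply h3.dvd_of_dvd_mul_right
      exact (pow_dvd_pow_of_dvd (dvd_mul_right _ _) 5).trans hz
    obtain ⟨z', rfl⟩ := hpz
    apply mul_dvd_mul_left
    apply ih m hmn hm0
    obtain ⟨k, hk⟩ := hz
    refine ⟨k, ?_⟩
    apply mul_left_cancel₀ (pow_ne_zero 5 hpi.ne_zero)
    linear_combination hk

theorem adm11 : Adm 11 := ⟨by norm_num, 2, 1, 0, 0, by norm_num, by unfold Cnd; norm_num⟩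

/-- the main theorem -/
theorem main {N : ℤ} (hfree : ∀ p : ℕ, p.Prime → ¬ ((p : ℤ) ^ 5 ∣ N)) (h25 : 25 ∣ N → 125 ∣ N)
    (h5 : 5 ∣ N ∨ Res N)
    (huniq : ∀ p q : ℕ, p.Prime → q.Prime → (p : ℤ) ∣ N → (q : ℤ) ∣ N → p % 5 = 1 → q % 5 = 1 →
      p = q)
    (hadm : ∀ q : ℕ, q.Prime → (q : ℤ) ∣ N → q % 5 = 1 → Adm q) {x y z : ℤ}
    (h : x ^ 5 + y ^ 5 = N * z ^ 5) : z = 0 := by
  by_contra hz
  have hN0 : N ≠ 0 := by
    rintro rfl
    exact hfree 2 Nat.prime_two (dvd_zero _)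
  -- the coprime solution
  obtain ⟨x', y', z', hcop, hz', h'⟩ : ∃ x' y' z' : ℤ, IsCoprime x' y' ∧ z' ≠ 0 ∧
      x' ^ 5 + y' ^ 5 = N * z' ^ 5 := by
    have hxy : ¬ (x = 0 ∧ y = 0) := by
      rintro ⟨rfl, rfl⟩
      have : N * z ^ 5 = 0 := by rw [← h]; ring
      rcases mul_eq_zero.1 this with h0 | h0
      · exact hN0 h0
      · exact hz (pow_eq_zero_iff (by norm_num) |>.1 h0)
    have hd : Int.gcd x y ≠ 0 := by
      intro h0
      exact hxy (Int.gcd_eq_zero_iff.1 h0)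
    obtain ⟨x', hx'⟩ := Int.gcd_dvd_left x y
    obtain ⟨y', hy'⟩ := Int.gcd_dvd_right x y
    have hd' : ((Int.gcd x y : ℕ) : ℤ) ≠ 0 := by exact_mod_cast hd
    have hcop : IsCoprime x' y' := by
      obtain ⟨s, t, hst⟩ : ∃ s t : ℤ, ((Int.gcd x y : ℕ) : ℤ) = x * s + y * t :=
        ⟨_, _, Int.gcd_eq_gcd_ab x y⟩
      refine ⟨s, t, ?_⟩
      apply mul_left_cancel₀ hd'
      have e : ((Int.gcd x y : ℕ) : ℤ) * (s * x' + t * y') =
        (((Int.gcd x y : ℕ) : ℤ) * x') * s + (((Int.gcd x y : ℕ) : ℤ) * y') * t := by ring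
      rw [mul_one, e, ← hx', ← hy', ← hst]
    have h1 : (((Int.gcd x y : ℕ) : ℤ)) ^ 5 ∣ N * z ^ 5 := by
      rw [← h]
      exact dvd_add (pow_dvd_pow_of_dvd (Int.gcd_dvd_left x y) 5)
        (pow_dvd_pow_of_dvd (Int.gcd_dvd_right x y) 5)
    obtain ⟨z', hz'⟩ := pow_free hfree _ hd z h1
    refine ⟨x', y', z', hcop, ?_, ?_⟩
    · rintro rfl
      exact hz (by rw [hz']; ring)
    · apply mul_left_cancel₀ (pow_ne_zero 5 hd')
      have e1 : ((Int.gcd x y : ℕ) : ℤ) ^ 5 * (x' ^ 5 + y' ^ 5) =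
          (((Int.gcd x y : ℕ) : ℤ) * x') ^ 5 + (((Int.gcd x y : ℕ) : ℤ) * y') ^ 5 := by ring
      have e2 : ((Int.gcd x y : ℕ) : ℤ) ^ 5 * (N * z' ^ 5) =
          N * (((Int.gcd x y : ℕ) : ℤ) * z') ^ 5 := by ring
      rw [e1, e2, ← hx', ← hy', ← hz', h]
  by_cases hex : ∃ q : ℕ, q.Prime ∧ (q : ℤ) ∣ N ∧ q % 5 = 1
  · obtain ⟨q, hq, hqN, hq5⟩ := hex
    have hqi : Prime (q : ℤ) := Nat.prime_iff_prime_int.1 hq
    obtain ⟨D, hD1, hD2⟩ := (FiniteMultiplicity.of_prime_left hqi hN0).exists_eq_pow_mul_and_not_dvd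
    set c := multiplicity (q : ℤ) N with hc
    have hc0 : c ≠ 0 := by
      intro h0
      rw [h0, pow_zero, one_mul] at hD1
      rw [hD1] at hqN
      exact hD2 hqN
    have hc5 : c < 5 := by
      by_contra hcon
      apply hfree q hq
      rw [hD1]
      exact (pow_dvd_pow _ (not_lt.1 hcon)).mul_right _
    have hD0 : D ≠ 0 := by
      rintro rfl
      exact hN0 (by rw [hD1, mul_zero])
    have hDN : D ∣ N := ⟨q ^ c, by rw [mul_comm]; exact hD1⟩
    have hDg : Good D := by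
      intro p hpp hpD hp5
      have := huniq p q hpp hq (hpD.trans hDN) hqN hp5 hq5
      rw [this] at hpD
      exact hD2 hpD
    have hq5' : ¬ (5 : ℤ) ∣ q := by omega
    have hcq : IsCoprime (5 : ℤ) ((q : ℤ) ^ c) := (prime5.coprime_iff_not_dvd.2 hq5').pow_right
    refine coprime_case (D := D) (c := c) hqi (hadm q hq hqN hq5) (Or.inr (by omega)) hcop hz' hD0
      hDg ?_ ?_ ?_
    · intro h6
      have h7 := h25 (h6.trans hDN)
      rw [hD1] at h7
      have e : (125 : ℤ) = 5 ^ 3 := by norm_num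
      rw [e] at h7 ⊢
      exact (hcq.pow_left).dvd_of_dvd_mul_left h7
    · rcases h5 with h5 | h5
      · left
        rw [hD1] at h5
        exact hcq.dvd_of_dvd_mul_left h5
      · right
        rw [mul_comm, ← hD1]
        exact h5
    · rw [h', mul_comm D, ← hD1]
  · have hNg : Good N := fun p hpp hpN hp5 => hex ⟨p, hpp, hpN, hp5⟩
    refine coprime_case (q := 11) (D := N) (c := 0) (by norm_num) adm11 (Or.inl rfl) hcop hz' hN0
      hNg h25 ?_ ?_
    · simpa using h5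
    · rw [h']; ring

/-- the equation `a x⁵ + a y⁵ = b z⁵` -/
theorem main' {N : ℤ} (hfree : ∀ p : ℕ, p.Prime → ¬ ((p : ℤ) ^ 5 ∣ N)) (h25 : 25 ∣ N → 125 ∣ N)
    (h5 : 5 ∣ N ∨ Res N)
    (huniq : ∀ p q : ℕ, p.Prime → q.Prime → (p : ℤ) ∣ N → (q : ℤ) ∣ N → p % 5 = 1 → q % 5 = 1 →
      p = q)
    (hadm : ∀ q : ℕ, q.Prime → (q : ℤ) ∣ N → q % 5 = 1 → Adm q) {a b m : ℤ} (ha : a ≠ 0)
    (hm : m ≠ 0) (hab : b * a ^ 4 = N * m ^ 5) (x y z : ℤ) :
    a * x ^ 5 + a * y ^ 5 = b * z ^ 5 ↔ y = -x ∧ z = 0 := by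
  constructor
  · intro h
    have h1 : (a * x) ^ 5 + (a * y) ^ 5 = N * (m * z) ^ 5 := by
      linear_combination a ^ 4 * h + z ^ 5 * hab
    have h2 := main hfree h25 h5 huniq hadm h1
    have hz : z = 0 := by
      rcases mul_eq_zero.1 h2 with h0 | h0
      · exact absurd h0 hm
      · exact h0
    refine ⟨?_, hz⟩
    subst hz
    have h3 : y ^ 5 = (-x) ^ 5 := by
      apply mul_left_cancel₀ ha
      rw [Odd.neg_pow (by decide)]
      linear_combination h
    exact (Odd.strictMono_pow (by decide : Odd 5)).injective h3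
  · rintro ⟨rfl, rfl⟩
    ring

end Pool.Agent.KS6_83.E5
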