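import Pool.Agent.KS6_83.E5.Descent

/-!
# The first stage: `x ^ 5 + y ^ 5 = D * q ^ c * w ^ 5` with coprime odd `x`, `y`
-/

set_option autoImplicit false

namespace Pool.Agent.KS6_83.E5

lemma fifth_mod (x : ℤ) : (x % 5 = 0 ∧ x ^ 5 % 25 = 0) ∨ (x % 5 ≠ 0 ∧
    (x ^ 5 % 25 = 1 ∨ x ^ 5 % 25 = 7 ∨ x ^ 5 % 25 = 18 ∨ x ^ 5 % 25 = 24)) := by
  obtain ⟨q, i, hqi, hi, hi0, hi5⟩ : ∃ q i : ℤ, x = 5 * q + i ∧ x % 5 = i ∧ 0 ≤ i ∧ i < 5 :=
    ⟨x / 5, x % 5, by omega, rfl, by omega, by omega⟩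
  have h1 : x ^ 5 = i ^ 5 + 25 * (q * i ^ 4 + 10 * q ^ 2 * i ^ 3 + 50 * q ^ 3 * i ^ 2 +
      125 * q ^ 4 * i + 125 * q ^ 5) := by rw [hqi]; ring
  rw [hi, h1]
  generalize q * i ^ 4 + 10 * q ^ 2 * i ^ 3 + 50 * q ^ 3 * i ^ 2 + 125 * q ^ 4 * i + 125 * q ^ 5 = Z
  interval_cases i <;> omega

/-- the residues modulo `25` which exclude solutions with `5 ∤ w` -/
def Res (N : ℤ) : Prop := N % 25 = 3 ∨ N % 25 = 4 ∨ N % 25 = 9 ∨ N % 25 = 12 ∨ N % 25 = 13 ∨
  N % 25 = 16 ∨ N % 25 = 21 ∨ N % 25 = 22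

lemma five_dvd {N x y w : ℤ} (hN : Res N) (hc : IsCoprime x y) (h : x ^ 5 + y ^ 5 = N * w ^ 5) :
    5 ∣ w := by
  have hx5 := fifth_mod x
  have hy5 := fifth_mod y
  have hw5 := fifth_mod w
  have hnot : ¬ (x % 5 = 0 ∧ y % 5 = 0) := by
    rintro ⟨h2, h3⟩
    exact prime5.not_isUnit (hc.isUnit_of_dvd' (Int.dvd_of_emod_eq_zero h2)
      (Int.dvd_of_emod_eq_zero h3))
  have hm : (N * w ^ 5) % 25 = (N % 25) * (w ^ 5 % 25) % 25 := Int.mul_emod _ _ _
  rw [← h] at hm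
  generalize x ^ 5 = X at *
  generalize y ^ 5 = Y at *
  generalize w ^ 5 = W at *
  rcases hw5 with hw5 | ⟨-, hw5⟩
  · omega
  exfalso
  unfold Res at hN
  generalize N % 25 = M at *
  generalize W % 25 = W' at *
  rcases hN with rfl | rfl | rfl | rfl | rfl | rfl | rfl | rfl <;>
    rcases hw5 with rfl | rfl | rfl | rfl <;> omega

/-- `x⁵ + y⁵ = D q ^ c w⁵` has no solution in coprime odd integers with `w ≠ 0` -/
theorem first {q : ℤ} (hp : Prime q) (hq : Adm q) {D x y w : ℤ} {c : ℕ} (hc : c = 0 ∨ ¬ 5 ∣ c)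
    (hxy : IsCoprime x y) (hxo : Odd x) (hyo : Odd y) (hw : w ≠ 0) (hD0 : D ≠ 0) (hDg : Good D)
    (h25 : 25 ∣ D → 125 ∣ D) (h5 : 5 ∣ D ∨ Res (D * q ^ c))
    (h : x ^ 5 + y ^ 5 = D * q ^ c * w ^ 5) (h2 : 2 ∣ D) : False := by
  have hq5 : ¬ 5 ∣ q := by
    have := hq.mod
    omega
  obtain ⟨b0, hb0⟩ := hxo.add_odd hyo
  obtain ⟨a, ha⟩ : ∃ a, x = b0 + a := ⟨x - b0, by ring⟩
  have hy : y = b0 - a := by omega
  have hcab : IsCoprime a b0 := by
    obtain ⟨s, t, hst⟩ := hxy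
    exact ⟨s - t, s + t, by rw [← hst, ha, hy]; ring⟩
  -- `5` divides `D` or `w`
  have h5' : 5 ∣ D * q ^ c * w ^ 5 := by
    rcases h5 with h5 | h5
    · exact (h5.mul_right _).mul_right _
    · exact ((five_dvd h5 hxy h).trans (dvd_pow_self w (by norm_num))).mul_left _
  have hb5 : 5 ∣ b0 := by
    have h1 : 5 ∣ 2 * b0 ^ 5 := by
      have e : 2 * b0 ^ 5 = D * q ^ c * w ^ 5 - 5 * (4 * b0 ^ 3 * a ^ 2 + 2 * b0 * a ^ 4) := by
        rw [← h, ha, hy]; ring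
      rw [e]
      exact dvd_sub h5' (dvd_mul_right _ _)
    rcases prime5.dvd_or_dvd h1 with h1 | h1
    · omega
    · exact prime5.dvd_of_dvd_pow h1
  obtain ⟨b, rfl⟩ := hb5
  set T := a ^ 4 + 50 * a ^ 2 * b ^ 2 + 125 * b ^ 4 with hT
  have hxyT : x ^ 5 + y ^ 5 = 50 * (b * T) := by rw [ha, hy, hT]; ring
  have hcab' : IsCoprime a b := hcab.of_isCoprime_of_dvd_right (dvd_mul_left _ _)
  have ha5 : ¬ 5 ∣ a := fun h5 => prime5.not_isUnit (hcab.isUnit_of_dvd' h5 (dvd_mul_right _ _))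
  have hab : Odd (a + b) := by
    have := hxo
    rw [ha] at this
    have e : a + b = 5 * b + a - 2 * (2 * b) := by ring
    rw [e]
    exact this.sub_even (even_two_mul _)
  have hTo : Odd T := by
    have e : T = (a + b) ^ 4 + 2 * (-2 * a ^ 3 * b + 22 * a ^ 2 * b ^ 2 - 2 * a * b ^ 3 +
        62 * b ^ 4) := by rw [hT]; ring
    rw [e]
    exact hab.pow.add_even (even_two_mul _)
  have hT2 : IsCoprime T 2 := cop2 hTo
  have hT5 : IsCoprime T 5 := by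
    apply cop5
    intro h3
    apply ha5
    apply prime5.dvd_of_dvd_pow (n := 4)
    have e1 : a ^ 4 = T - 5 * (10 * a ^ 2 * b ^ 2 + 25 * b ^ 4) := by rw [hT]; ring
    rw [e1]
    exact dvd_sub h3 (dvd_mul_right _ _)
  have hTb : IsCoprime T b := by
    have : T = a ^ 4 + b * (50 * a ^ 2 * b + 125 * b ^ 3) := by rw [hT]; ring
    rw [this]
    exact (IsCoprime.add_mul_left_left_iff).2 hcab'.pow_left
  have hT10 : IsCoprime T (10 * b) := by
    have e1 : (10 : ℤ) * b = 2 * 5 * b := by ring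
    rw [e1]
    exact (hT2.mul_right hT5).mul_right hTb
  have hT0 : T ≠ 0 := by
    intro h0
    rw [h0] at hTo
    simp at hTo
  have hTp : ∀ p : ℕ, p.Prime → (p : ℤ) ∣ T → p % 5 = 1 := by
    intro p hpp hpT
    apply prime_mod hpp (x := x) (y := y)
    · rw [hxyT]
      exact (hpT.mul_left _).mul_left _
    · intro h1
      have e1 : x + y = 10 * b := by rw [ha, hy]; ring
      rw [e1] at h1
      exact (Nat.prime_iff_prime_int.1 hpp).not_isUnit (hT10.isUnit_of_dvd' hpT h1)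
  -- the new coefficient
  obtain ⟨D1, k, hD1g, hD15, hD10, hk0, hD1⟩ : ∃ D1 k : ℤ, Good D1 ∧ 5 ∣ D1 ∧ D1 ≠ 0 ∧ k ≠ 0 ∧
      D * w ^ 5 = 50 * (D1 * k ^ 5) := by
    by_cases hw5 : 5 ∣ w
    · obtain ⟨k, rfl⟩ := hw5
      obtain ⟨E, rfl⟩ := h2
      have hE : Good E := hDg.of_dvd (dvd_mul_left _ _)
      refine ⟨5 * (5 * (5 * E)), k, good_five.mul (good_five.mul (good_five.mul hE)),
        dvd_mul_right _ _, ?_, ?_, by ring⟩
      · intro h0
        apply hD0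
        have : E = 0 := by omega
        rw [this]; ring
      · rintro rfl
        exact hw (by ring)
    · have h6 : 25 ∣ D := by
        have h7 : IsCoprime (25 : ℤ) (q ^ c * w ^ 5) := by
          have e : (25 : ℤ) = 5 ^ 2 := by norm_num
          rw [e]
          exact ((prime5.coprime_iff_not_dvd.2 hq5).pow_right.mul_right
            (prime5.coprime_iff_not_dvd.2 hw5).pow_right).pow_left
        apply h7.dvd_of_dvd_mul_right
        rw [← mul_assoc, ← h, hxyT]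
        exact ⟨2 * (b * T), by ring⟩
      have h8 := h25 h6
      obtain ⟨F, hF⟩ : 250 ∣ D := by omega
      have hFg : Good F := hDg.of_dvd ⟨250, by rw [hF]; ring⟩
      refine ⟨5 * F, w, good_five.mul hFg, dvd_mul_right _ _, ?_, hw, by rw [hF]; ring⟩
      intro h0
      apply hD0
      omega
  have heq : b * T = D1 * q ^ c * k ^ 5 := by
    apply mul_left_cancel₀ (show (50 : ℤ) ≠ 0 by norm_num)
    rw [← hxyT, h]
    linear_combination q ^ c * hD1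
  have hb0 : b ≠ 0 := by
    rintro rfl
    rw [zero_mul] at heq
    exact (mul_ne_zero (mul_ne_zero hD10 (pow_ne_zero _ hp.ne_zero)) (pow_ne_zero _ hk0)) heq.symm
  have hTD : IsCoprime T D1 := cop_good hT0 hTp hD1g
  have h5b : 5 ∣ b := hD15.trans (hTD.symm.dvd_of_dvd_mul_right (by
    rw [heq]; exact ⟨q ^ c * k ^ 5, by ring⟩))
  obtain ⟨l, r, hl, hr⟩ := split hp hTb hTD hb0 hT0 hD10 hc heq
    fun g r hg hgr => nob hp hq h5b hT10 hgr hg
  have hUo : Odd (a ^ 2 + 25 * b ^ 2) := by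
    have e : a ^ 2 + 25 * b ^ 2 = (a + b) ^ 2 + 2 * (12 * b ^ 2 - a * b) := by ring
    rw [e]
    exact hab.pow.add_even (even_two_mul _)
  obtain ⟨m, n, c1, c2, c3, c4, c5, c6⟩ := next (U := a ^ 2 + 25 * b ^ 2) (V := 10 * b ^ 2) (r := r)
    (by rw [← hr, hT]; ring) hUo ⟨5 * b ^ 2, by ring⟩ ⟨2 * b ^ 2, by ring⟩
    (by
      intro h6
      apply ha5
      apply prime5.dvd_of_dvd_pow (n := 2)
      exact (Int.dvd_iff_dvd_of_dvd_add h6).2 ⟨5 * b ^ 2, by ring⟩)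
    (by
      have e : (10 : ℤ) * b ^ 2 = 2 * 5 * b ^ 2 := by ring
      rw [e]
      refine ((cop2 hUo).mul_right ?_).mul_right ?_
      · have e2 : a ^ 2 + 25 * b ^ 2 = a ^ 2 + 5 * (5 * b ^ 2) := by ring
        rw [e2]
        exact (IsCoprime.add_mul_left_left_iff).2 (cop5 ha5).pow_left
      · apply IsCoprime.pow_right
        have e2 : a ^ 2 + 25 * b ^ 2 = a ^ 2 + b * (25 * b) := by ring
        rw [e2]
        exact (IsCoprime.add_mul_left_left_iff).2 hcab'.pow_left)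
    (mul_ne_zero (by norm_num) (pow_ne_zero _ hb0))
  refine no_St hp hq _ m n rfl ⟨c1, c2, c3, c4, c5, 2 * (D1 * D1), 2 * c, l ^ 2,
    good_two.mul (hD1g.mul hD1g), by positivity, (hD15.mul_right _).mul_left _, by omega, ?_⟩
  apply mul_left_cancel₀ (show (5 : ℤ) ≠ 0 by norm_num)
  rw [← c6, hl]
  ring

end Pool.Agent.KS6_83.E5
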